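import Pool.Agent.Helper18.Roh.Level

namespace Pool.Agent.Helper18.Roh

open Finset Filter Topology

open Classical in
/-- counting tuples through their first coordinate. -/
theorem card_tuples_le (r D K : ℕ) (P : (Fin (r + 1) → ℕ) → Prop)
    (hP : ∀ t : Fin r → ℕ, (∀ i, 1 ≤ t i ∧ t i < D) →
      ((Finset.Ico 1 D).filter fun x => P (Fin.cons x t)).card ≤ K) :
    ((Fintype.piFinset fun _ : Fin (r + 1) => Finset.Ico 1 D).filter P).card ≤
      K * (D - 1) ^ r := by
  have h1 := Finset.card_le_mul_card_image (f := fun j : Fin (r + 1) → ℕ => Fin.tail j)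
    ((Fintype.piFinset fun _ : Fin (r + 1) => Finset.Ico 1 D).filter P) K ?_
  · refine h1.trans (Nat.mul_le_mul_left _ ?_)
    calc _ ≤ (Fintype.piFinset fun _ : Fin r => Finset.Ico 1 D).card := by
          apply Finset.card_le_card
          intro t ht
          rw [Finset.mem_image] at ht
          obtain ⟨j, hj, rfl⟩ := ht
          rw [Finset.mem_filter, Fintype.mem_piFinset] at hj
          rw [Fintype.mem_piFinset]
          intro i
          exact hj.1 i.succ
      _ = (D - 1) ^ r := by simp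
  · intro t ht
    rw [Finset.mem_image] at ht
    obtain ⟨j0, hj0, rfl⟩ := ht
    rw [Finset.mem_filter, Fintype.mem_piFinset] at hj0
    refine le_trans ?_ (hP (Fin.tail j0) ?_)
    · apply Finset.card_le_card_of_injOn (fun j => j 0)
      · intro j hj
        rw [Finset.mem_coe, Finset.mem_filter, Finset.mem_filter, Fintype.mem_piFinset] at hj
        rw [Finset.mem_coe, Finset.mem_filter]
        refine ⟨hj.1.1 0, ?_⟩
        rw [← hj.2, Fin.cons_self_tail]
        exact hj.1.2
      · intro j hj j' hj' h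
        rw [Finset.mem_coe, Finset.mem_filter] at hj hj'
        rw [← Fin.cons_self_tail j, ← Fin.cons_self_tail j']
        simp only at h
        rw [h, hj.2, hj'.2]
    · intro i
      have := hj0.1 i.succ
      rw [Finset.mem_Ico] at this
      exact this

/-- the first condition of Q1. -/
def AlgSide (r : ℕ) (a : Fin r → ℚ) : Prop :=
  ∃ α : ℝ, IsAlgebraic ℚ α ∧
      ∏ i : Fin r, Real.Gamma ((a i : ℚ) : ℝ) = α * Real.pi ^ ((r : ℝ) / 2)

/-- the second condition of Q1. -/
def FractSide (r : ℕ) (a : Fin r → ℚ) (D : ℕ) : Prop :=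
  ∀ m : ℕ, 1 ≤ m → m < D → Nat.Coprime m D →
      ∑ i : Fin r, Int.fract ((m : ℚ) * a i) = (r : ℚ) / 2

open Classical in
theorem card_algSide_le (r D K : ℕ) (hK : ∀ lam : ℝ, (level D lam).card ≤ K) :
    ((Fintype.piFinset fun _ : Fin (r + 1) => Finset.Ico 1 D).filter
      fun j => AlgSide (r + 1) (fun i => (j i : ℚ) / D)).card ≤ K * (D - 1) ^ r := by
  apply card_tuples_le
  intro t ht
  set Q : ℝ := ∏ i : Fin r, Real.Gamma ((t i : ℝ) / D) with hQ
  have hQpos : r = 0 ∨ 0 < D := by
    rcases Nat.eq_zero_or_pos r with h0 | h0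
    · left; exact h0
    · right
      have := ht ⟨0, h0⟩
      omega
  have hQne : Q ≠ 0 := by
    rw [hQ]
    apply Finset.prod_ne_zero_iff.mpr
    intro i _
    have := ht i
    have hD : (0 : ℝ) < D := by exact_mod_cast (by omega : 0 < D)
    have hti : (0 : ℝ) < t i := by exact_mod_cast (by omega : 0 < t i)
    exact (Real.Gamma_pos_of_pos (by positivity)).ne'
  refine le_trans (Finset.card_le_card ?_) (hK (Real.pi ^ (((r + 1 : ℕ) : ℝ) / 2) / Q))
  intro x hx
  rw [Finset.mem_filter, Finset.mem_Ico] at hx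
  obtain ⟨hx1, α, hα, hα'⟩ := hx
  rw [mem_level]
  refine ⟨hx1, α, hα, ?_⟩
  rw [Fin.prod_univ_succ] at hα'
  simp only [Fin.cons_zero, Fin.cons_succ] at hα'
  have e : ∏ i : Fin r, Real.Gamma ((((t i : ℚ) / D : ℚ)) : ℝ) = Q := by
    rw [hQ]
    apply Finset.prod_congr rfl
    intro i _
    push_cast
    rfl
  rw [e] at hα'
  have e2 : ((((x : ℚ) / D : ℚ)) : ℝ) = (x : ℝ) / D := by push_cast; rfl
  rw [e2] at hα'
  rw [← mul_div_assoc, ← hα']
  field_simp

open Classical in
theorem card_fractSide_le (r D : ℕ) (hD : 2 ≤ D) :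
    ((Fintype.piFinset fun _ : Fin (r + 1) => Finset.Ico 1 D).filter
      fun j => FractSide (r + 1) (fun i => (j i : ℚ) / D) D).card ≤ 1 * (D - 1) ^ r := by
  apply card_tuples_le
  intro t ht
  rw [Finset.card_le_one]
  intro x hx y hy
  rw [Finset.mem_filter, Finset.mem_Ico] at hx hy
  have h1 := hx.2 1 le_rfl (by omega) (Nat.coprime_one_left D)
  have h2 := hy.2 1 le_rfl (by omega) (Nat.coprime_one_left D)
  rw [← h2] at h1
  rw [Fin.sum_univ_succ, Fin.sum_univ_succ] at h1
  simp only [Fin.cons_zero, Fin.cons_succ] at h1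
  have h3 := add_right_cancel h1
  rw [fract_natMul, fract_natMul, one_mul, one_mul, Nat.mod_eq_of_lt hx.1.2,
    Nat.mod_eq_of_lt hy.1.2] at h3
  have hDQ : (D : ℚ) ≠ 0 := by exact_mod_cast (by omega : D ≠ 0)
  have h4 := (div_left_inj' hDQ).mp h3
  exact_mod_cast h4

theorem card_failing_le (hWW : WolfartWustholz) (r D : ℕ) (hr : 1 ≤ r) (hD : 2 ≤ D) :
    (failing r D).card ≤ (rothNumberNat D + 11) * (D - 1) ^ (r - 1) := by
  classical
  obtain ⟨s, rfl⟩ : ∃ s, r = s + 1 := ⟨r - 1, by omega⟩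
  have h1 := card_algSide_le s D (rothNumberNat D + 10) (card_level_le hWW D)
  have h2 := card_fractSide_le s D hD
  have h3 : failing (s + 1) D ⊆
      ((Fintype.piFinset fun _ : Fin (s + 1) => Finset.Ico 1 D).filter
        fun j => AlgSide (s + 1) (fun i => (j i : ℚ) / D)) ∪
      ((Fintype.piFinset fun _ : Fin (s + 1) => Finset.Ico 1 D).filter
        fun j => FractSide (s + 1) (fun i => (j i : ℚ) / D) D) := by
    intro j hj
    rw [failing, Finset.mem_filter] at hj
    rw [Finset.mem_union, Finset.mem_filter, Finset.mem_filter]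
    by_cases hA : AlgSide (s + 1) (fun i => (j i : ℚ) / D)
    · left; exact ⟨hj.1, hA⟩
    · right
      refine ⟨hj.1, ?_⟩
      by_contra hF
      exact hj.2 ⟨fun h => absurd h hA, fun h => absurd h hF⟩
  calc (failing (s + 1) D).card ≤ _ := (Finset.card_le_card h3).trans (Finset.card_union_le _ _)
    _ ≤ (rothNumberNat D + 10) * (D - 1) ^ s + 1 * (D - 1) ^ s := Nat.add_le_add h1 h2
    _ = (rothNumberNat D + 11) * (D - 1) ^ (s + 1 - 1) := by
      rw [Nat.add_sub_cancel]; ring

theorem tendsto_failing (hWW : WolfartWustholz) (r : ℕ) (hr : 1 ≤ r) :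
    Tendsto (fun D : ℕ => ((failing r D).card : ℝ) / ((D : ℝ) - 1) ^ r) atTop (𝓝 0) := by
  have hroth : Tendsto (fun D : ℕ => ((rothNumberNat D : ℝ) + 11) / ((D : ℝ) - 1)) atTop (𝓝 0) := by
    have h1 : Tendsto (fun D : ℕ => (rothNumberNat D : ℝ) / (D : ℝ)) atTop (𝓝 0) :=
      rothNumberNat_isLittleO_id.tendsto_div_nhds_zero
    have h2 : Tendsto (fun D : ℕ => (11 : ℝ) / (D : ℝ)) atTop (𝓝 0) :=
      tendsto_const_div_atTop_nhds_zero_nat 11
    have h3 : Tendsto (fun D : ℕ => 2 * ((rothNumberNat D : ℝ) / (D : ℝ) + 11 / (D : ℝ)))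
        atTop (𝓝 0) := by
      have := (h1.add h2).const_mul 2
      simpa using this
    refine squeeze_zero' ?_ ?_ h3
    · filter_upwards [eventually_ge_atTop 2] with D hD
      have : (2 : ℝ) ≤ D := by exact_mod_cast hD
      have : (0 : ℝ) < (D : ℝ) - 1 := by linarith
      positivity
    · filter_upwards [eventually_ge_atTop 2] with D hD
      have hD2 : (2 : ℝ) ≤ D := by exact_mod_cast hD
      have hp : (0 : ℝ) < (D : ℝ) - 1 := by linarith
      have hD0 : (0 : ℝ) < D := by linarith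
      rw [← add_div, div_le_iff₀ hp]
      have h4 : 0 ≤ ((rothNumberNat D : ℝ) + 11) / D := by positivity
      have h5 : (rothNumberNat D : ℝ) + 11 = ((rothNumberNat D : ℝ) + 11) / D * D := by
        field_simp
      nlinarith
  refine squeeze_zero' ?_ ?_ hroth
  · filter_upwards [eventually_ge_atTop 2] with D hD
    have : (2 : ℝ) ≤ D := by exact_mod_cast hD
    have : (0 : ℝ) < (D : ℝ) - 1 := by linarith
    positivity
  · filter_upwards [eventually_ge_atTop 2] with D hD
    have hD2 : (2 : ℝ) ≤ D := by exact_mod_cast hD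
    have hp : (0 : ℝ) < (D : ℝ) - 1 := by linarith
    have h1 := card_failing_le hWW r D hr hD
    have h2 : ((failing r D).card : ℝ) ≤ ((rothNumberNat D : ℝ) + 11) * ((D : ℝ) - 1) ^ (r - 1) := by
      have : ((failing r D).card : ℝ) ≤
          (((rothNumberNat D + 11) * (D - 1) ^ (r - 1) : ℕ) : ℝ) := by exact_mod_cast h1
      refine this.trans (le_of_eq ?_)
      push_cast [Nat.cast_sub (by omega : 1 ≤ D)]
      ring
    rw [div_le_div_iff₀ (by positivity) hp]
    calc ((failing r D).card : ℝ) * ((D : ℝ) - 1)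
        ≤ (((rothNumberNat D : ℝ) + 11) * ((D : ℝ) - 1) ^ (r - 1)) * ((D : ℝ) - 1) :=
          mul_le_mul_of_nonneg_right h2 hp.le
      _ = ((rothNumberNat D : ℝ) + 11) * ((D : ℝ) - 1) ^ r := by
          obtain ⟨s, rfl⟩ : ∃ s, r = s + 1 := ⟨r - 1, by omega⟩
          rw [Nat.add_sub_cancel, pow_succ]; ring

end Pool.Agent.Helper18.Roh
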