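import Mathlib

/-! Definitions for the counting results on Rohrlich's conjecture (MP_c2409d_nt). -/

namespace Pool.Agent.Helper18.Roh

/-- The statement of Q1 for the rationals `a 0, …, a (r-1)` with common denominator `D`:
the product of the gamma values is an algebraic multiple of `π^{r/2}` if and only if the
fractional parts of the `m a_i` add up to `r/2` for every `m ∈ {1, …, D-1}` prime to `D`. -/
def Equivalence (r : ℕ) (a : Fin r → ℚ) (D : ℕ) : Prop :=
  (∃ α : ℝ, IsAlgebraic ℚ α ∧
      ∏ i : Fin r, Real.Gamma ((a i : ℚ) : ℝ) = α * Real.pi ^ ((r : ℝ) / 2)) ↔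
    ∀ m : ℕ, 1 ≤ m → m < D → Nat.Coprime m D →
      ∑ i : Fin r, Int.fract ((m : ℚ) * a i) = (r : ℚ) / 2

open Classical in
/-- The `r`-tuples `(j_1/D, …, j_r/D)`, `1 ≤ j_i < D`, at which the equivalence of Q1 fails. -/
noncomputable def failing (r D : ℕ) : Finset (Fin r → ℕ) :=
  (Fintype.piFinset fun _ : Fin r => Finset.Ico 1 D).filter
    fun j => ¬ Equivalence r (fun i => (j i : ℚ) / D) D

/-- The two-term case of the theorem of Wolfart and Wüstholz (Math. Ann. 273 (1985)) on linear
relations between values of Euler's beta integral at rational points: if `a, b, a + b` and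
`c, d, c + d` are not integers and the positive number `B(a,b) / B(c,d)` is algebraic, then the
two values belong to the same conjugacy data, that is, for every `m` prime to a common
denominator, `{ma} + {mb} - {m(a+b)} = {mc} + {md} - {m(c+d)}`. -/
def WolfartWustholz : Prop :=
  ∀ (D : ℕ) (a b c d : ℚ), 0 < D → 0 < a → 0 < b → 0 < c → 0 < d →
    (∀ x ∈ ({a, b, c, d} : Set ℚ), ∃ z : ℤ, (D : ℚ) * x = z) →
    (∀ x ∈ ({a, b, a + b, c, d, c + d} : Set ℚ), ∀ z : ℤ, x ≠ z) →
    IsAlgebraic ℚ (Complex.betaIntegral (a : ℂ) (b : ℂ) / Complex.betaIntegral (c : ℂ) (d : ℂ)) →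
    ∀ m : ℕ, Nat.Coprime m D →
      Int.fract ((m : ℚ) * a) + Int.fract ((m : ℚ) * b) - Int.fract ((m : ℚ) * (a + b)) =
        Int.fract ((m : ℚ) * c) + Int.fract ((m : ℚ) * d) - Int.fract ((m : ℚ) * (c + d))

end Pool.Agent.Helper18.Roh
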