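import Pool.Agent.Helper18.Roh.Num

namespace Pool.Agent.Helper18.Roh

open Finset

/-- a unit multiple of `c` modulo `D` equals `gcd c D`. -/
theorem exists_unit_mul (D c : ℕ) (hD : 0 < D) (hc : 0 < c) :
    ∃ v : ℕ, Nat.Coprime v D ∧ (v * c) % D = Nat.gcd c D % D := by
  set g := Nat.gcd c D with hg
  have hgpos : 0 < g := Nat.gcd_pos_of_pos_left _ hc
  obtain ⟨c', hc'⟩ : g ∣ c := Nat.gcd_dvd_left ..
  obtain ⟨n, hn⟩ : g ∣ D := Nat.gcd_dvd_right ..
  have hcop : Nat.Coprime c' n := by
    have h1 := Nat.gcd_mul_left g c' n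
    rw [← hc', ← hn, ← hg] at h1
    exact (Nat.eq_of_mul_eq_mul_left hgpos (by rw [mul_one]; exact h1)).symm
  have hnD : n ∣ D := ⟨g, by rw [hn]; ring⟩
  have : NeZero D := ⟨hD.ne'⟩
  have hn0 : 0 < n := by
    rcases Nat.eq_zero_or_pos n with h0 | h0
    · subst h0; simp at hn; omega
    · exact h0
  have : NeZero n := ⟨hn0.ne'⟩
  obtain ⟨w, hw⟩ := ZMod.unitsMap_surjective hnD ((ZMod.unitOfCoprime c' hcop)⁻¹)
  refine ⟨(w : ZMod D).val, ZMod.val_coe_unit_coprime w, ?_⟩
  have h1 : ((w : ZMod D).val * c' : ZMod n) = 1 := by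
    have h2 : (((w : ZMod D).val : ℕ) : ZMod n) = ((ZMod.unitsMap hnD w : (ZMod n)ˣ) : ZMod n) := by
      rw [ZMod.unitsMap_val]
      rw [ZMod.cast_eq_val]
    rw [h2, hw]
    have h3 : (c' : ZMod n) = ((ZMod.unitOfCoprime c' hcop : (ZMod n)ˣ) : ZMod n) := by
      simp
    rw [h3, ← Units.val_mul]
    simp
  have h4 : (w : ZMod D).val * c' ≡ 1 [MOD n] := by
    rw [← ZMod.natCast_eq_natCast_iff]
    push_cast
    exact h1
  have h5 : g * ((w : ZMod D).val * c') ≡ g * 1 [MOD g * n] := Nat.ModEq.mul_left' g h4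
  rw [← hn, mul_one] at h5
  have h6 : (w : ZMod D).val * c = g * ((w : ZMod D).val * c') := by
    conv_lhs => rw [hc']
    ring
  rw [h6]
  exact h5

/-- the main elementary lemma: no non-trivial three term progression whose middle term has order
at least `6` satisfies the fractional part identity. -/
theorem no_ap (D a b c : ℕ) (ha : 0 < a) (haD : a < D) (hb : 0 < b) (hbD : b < D)
    (hc : 0 < c) (hab : a + b = 2 * c) (hne : a ≠ b) (hc6 : 6 * Nat.gcd c D ≤ D)
    (H : ∀ m : ℕ, Nat.Coprime m D → (m * a) % D + (m * b) % D = 2 * ((m * c) % D)) : False := by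
  have hD : 0 < D := by omega
  obtain ⟨v, hv, hvc⟩ := exists_unit_mul D c hD hc
  set g := Nat.gcd c D with hg
  have hgpos : 0 < g := Nat.gcd_pos_of_pos_left _ hc
  have hgD : g < D := by omega
  rw [Nat.mod_eq_of_lt hgD] at hvc
  obtain ⟨n, hn⟩ : g ∣ D := Nat.gcd_dvd_right ..
  have hn6 : 6 ≤ n := by
    have : g * 6 ≤ g * n := by rw [← hn]; omega
    exact Nat.le_of_mul_le_mul_left this hgpos
  set A := (v * a) % D with hA
  set B := (v * b) % D with hB
  have hAB : A + B = 2 * g := by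
    have := H v hv
    rw [hvc] at this
    exact this
  have hApos : 0 < A := by
    apply Nat.pos_of_ne_zero
    intro h0
    have h1 : D ∣ v * a := Nat.dvd_of_mod_eq_zero h0
    have h2 : D ∣ a := (Nat.Coprime.dvd_of_dvd_mul_left hv.symm h1)
    exact absurd (Nat.le_of_dvd ha h2) (by omega)
  have hBpos : 0 < B := by
    apply Nat.pos_of_ne_zero
    intro h0
    have h1 : D ∣ v * b := Nat.dvd_of_mod_eq_zero h0
    have h2 : D ∣ b := (Nat.Coprime.dvd_of_dvd_mul_left hv.symm h1)
    exact absurd (Nat.le_of_dvd hb h2) (by omega)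
  have hABne : A ≠ B := by
    intro h0
    have h1 : v * a ≡ v * b [MOD D] := h0
    have h2 : a ≡ b [MOD D] := Nat.ModEq.cancel_left_of_coprime (by rw [Nat.coprime_comm] at hv; exact hv) h1
    have h3 : a % D = b % D := h2
    rw [Nat.mod_eq_of_lt haD, Nat.mod_eq_of_lt hbD] at h3
    exact hne h3
  have HA : ∀ m : ℕ, Nat.Coprime m D → (m * A) % D + (m * B) % D = 2 * ((m * g) % D) := by
    intro m hm
    have h1 := H (m * v) (Nat.Coprime.mul_left hm hv)
    have e : ∀ x : ℕ, (m * v * x) % D = (m * ((v * x) % D)) % D := by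
      intro x
      rw [Nat.mul_mod m ((v * x) % D), Nat.mod_mod, ← Nat.mul_mod]
      ring_nf
    rw [e a, e b, e c, hvc] at h1
    exact h1
  clear_value A B
  -- signed difference
  obtain ⟨δ, hδ⟩ : ∃ δ : ℤ, δ = (g : ℤ) - A := ⟨_, rfl⟩
  have hδlt : |δ| < g := by
    rw [hδ, abs_lt]; constructor <;> omega
  have hδne : δ ≠ 0 := by
    rw [hδ]; omega
  have hnd : ¬ (g : ℤ) ∣ δ := by
    intro hd
    exact hδne (Int.eq_zero_of_abs_lt_dvd hd hδlt)
  by_cases h2 : Even n ∨ ¬ (g : ℤ) ∣ 2 * δ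
  · obtain ⟨k, hk, hkc, hfar⟩ := exists_k g n hgpos (by omega) δ hnd h2
    have hkn : 1 ≤ k * n := Nat.one_le_iff_ne_zero.mpr (by positivity)
    have hcopn : Nat.Coprime (k * n - 1) n := by
      apply Nat.coprime_of_dvd
      intro p hp hp1 hp2
      have h5 : p ∣ k * n := Dvd.dvd.mul_left hp2 k
      have h6 : p ∣ 1 := by
        have h7 : k * n - (k * n - 1) = 1 := by omega
        rw [← h7]
        exact Nat.dvd_sub h5 hp1
      exact hp.one_lt.ne' (Nat.dvd_one.mp h6)
    have hcopD : Nat.Coprime (k * n - 1) D := by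
      rw [hn]; exact Nat.Coprime.mul_right hkc hcopn
    have h3 := HA _ hcopD
    have hmg : ((k * n - 1) * g) % D = D - g := by
      have : (k * n - 1) * g = (D - g) + (k - 1) * D := by
        have e1 : ((k * n - 1 : ℕ) : ℤ) = (k : ℤ) * n - 1 := by push_cast [Nat.cast_sub hkn]; ring
        have e2 : ((k - 1 : ℕ) : ℤ) = (k : ℤ) - 1 := by push_cast [Nat.cast_sub hk]; ring
        have e3 : ((D - g : ℕ) : ℤ) = (D : ℤ) - g := by push_cast [Nat.cast_sub hgD.le]; ring
        have e4 : (D : ℤ) = g * n := by exact_mod_cast hn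
        zify
        rw [e1, e2, e3, e4]; ring
      rw [this, Nat.add_mul_mod_self_right]
      exact Nat.mod_eq_of_lt (by omega)
    rw [hmg] at h3
    have hP := Nat.mod_lt ((k * n - 1) * A) hD
    have hQ := Nat.mod_lt ((k * n - 1) * B) hD
    -- work with the residue of A
    obtain ⟨e, he⟩ : ∃ e : ℤ, e = ((((k * n - 1) * A) % D : ℕ) : ℤ) + g - D := ⟨_, rfl⟩
    have helt : |e| < g := by
      rw [he, abs_lt]
      constructor <;> omega
    have hdvd : (D : ℤ) ∣ (k : ℤ) * n * δ - (δ - e) := by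
      have h4 : (D : ℤ) ∣ (((k * n - 1) * A : ℕ) : ℤ) - ((((k * n - 1) * A) % D : ℕ) : ℤ) := by
        have := Nat.div_add_mod ((k * n - 1) * A) D
        refine ⟨((((k * n - 1) * A) / D : ℕ) : ℤ), ?_⟩
        have h5 : ((D * (((k * n - 1) * A) / D) + ((k * n - 1) * A) % D : ℕ) : ℤ)
          = (((k * n - 1) * A : ℕ) : ℤ) := by rw [this]
        rw [← h5]; push_cast; ring
      have e1 : ((k * n - 1 : ℕ) : ℤ) = (k : ℤ) * n - 1 := by push_cast [Nat.cast_sub hkn]; ring
      have e4 : (D : ℤ) = g * n := by exact_mod_cast hn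
      have hAe : (A : ℤ) = g - δ := by rw [hδ]; ring
      have h6 : (k : ℤ) * n * δ - (δ - e) = (D : ℤ) * (k - 1) -
          ((((k * n - 1) * A : ℕ) : ℤ) - ((((k * n - 1) * A) % D : ℕ) : ℤ)) := by
        rw [he, Nat.cast_mul, e1, hAe, e4]; ring
      rw [h6]
      exact dvd_sub (dvd_mul_right _ _) h4
    have hndvd : (n : ℤ) ∣ δ - e := by
      have h7 : (n : ℤ) ∣ (k : ℤ) * n * δ - (δ - e) :=
        dvd_trans ⟨g, by exact_mod_cast (by rw [hn]; ring : D = n * g)⟩ hdvd
      have h8 : (n : ℤ) ∣ (k : ℤ) * n * δ := ⟨k * δ, by ring⟩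
      have := dvd_sub h8 h7
      simpa using this
    obtain ⟨f, hf⟩ := hndvd
    have hnpos : (0 : ℤ) < n := by exact_mod_cast (by omega : 0 < n)
    have hgf : (g : ℤ) ∣ (k : ℤ) * δ - f := by
      rw [hf] at hdvd
      have e4 : (D : ℤ) = n * g := by exact_mod_cast (by rw [hn]; ring : D = n * g)
      rw [e4] at hdvd
      have h9 : (k : ℤ) * n * δ - n * f = n * (k * δ - f) := by ring
      rw [h9] at hdvd
      exact (mul_dvd_mul_iff_left hnpos.ne').mp hdvd
    have h10 := hfar f hgf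
    have h11 : n * |f| < 2 * g := by
      have : |(n : ℤ) * f| < 2 * g := by
        rw [← hf]
        calc |δ - e| ≤ |δ| + |e| := abs_sub _ _
          _ < 2 * g := by linarith
      rwa [abs_mul, abs_of_pos hnpos] at this
    have hn6' : (6 : ℤ) ≤ n := by exact_mod_cast hn6
    have hfn := abs_nonneg f
    have hg' : (0 : ℤ) < g := by exact_mod_cast hgpos
    nlinarith
  · -- the case δ = ± g/2 and n odd
    push Not at h2
    obtain ⟨hodd, hgd⟩ := h2
    have hnodd : n % 2 = 1 := by rw [Nat.even_iff] at hodd; omega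
    obtain ⟨z, hz⟩ := hgd
    have hg' : (0 : ℤ) < g := by exact_mod_cast hgpos
    have hz1 : z = 1 ∨ z = -1 := by
      have h3 : |(g : ℤ) * z| < g * 2 := by
        rw [← hz, abs_mul]; simp; linarith
      rw [abs_mul, abs_of_pos hg'] at h3
      have h4 : |z| < 2 := lt_of_mul_lt_mul_left h3 hg'.le
      have h5 : z ≠ 0 := by rintro rfl; apply hδne; linarith
      rw [abs_lt] at h4
      omega
    -- symmetric reduction : {A,B} = {g', 3g'}
    obtain ⟨g', hg2⟩ : ∃ g' : ℕ, g = 2 * g' := by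
      rcases hz1 with rfl | rfl
      · exact ⟨g - A, by omega⟩
      · exact ⟨A - g, by omega⟩
    have hAB' : (A = g' ∧ B = 3 * g') ∨ (A = 3 * g' ∧ B = g') := by
      rcases hz1 with rfl | rfl
      · left; omega
      · right; omega
    have HS : ∀ m : ℕ, Nat.Coprime m D →
        (m * g') % D + (m * (3 * g')) % D = 2 * ((m * g) % D) := by
      intro m hm
      rcases hAB' with ⟨h3, h4⟩ | ⟨h3, h4⟩
      · have := HA m hm; rw [h3, h4] at this; exact this
      · have := HA m hm; rw [h3, h4] at this; omega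
    have hg'pos : 0 < g' := by omega
    set ρ : ℕ := ∏ p ∈ g.primeFactors.erase 2, p with hρ
    have hρpos : 0 < ρ := Finset.prod_pos fun p hp =>
      (Nat.prime_of_mem_primeFactors (Finset.mem_of_mem_erase hp)).pos
    have hρodd : ρ % 2 = 1 := by
      have : Nat.Coprime ρ 2 := by
        apply Nat.Coprime.prod_left
        intro p hp
        rw [Finset.mem_erase] at hp
        exact (Nat.coprime_primes (Nat.prime_of_mem_primeFactors hp.2) Nat.prime_two).mpr hp.1
      rw [Nat.coprime_two_right] at this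
      exact Nat.odd_iff.mp this
    have hρn : 6 ≤ ρ * n := le_trans hn6 (Nat.le_mul_of_pos_left n hρpos)
    have hρnodd : (ρ * n) % 2 = 1 := by rw [Nat.mul_mod, hρodd, hnodd]
    have hcop : Nat.Coprime (ρ * n - 2) D := by
      apply Nat.coprime_of_dvd
      intro p hp hp1 hp2
      rcases eq_or_ne p 2 with rfl | hp2ne
      · omega
      · have h3 : p ∣ ρ * n := by
          rw [hn] at hp2
          rcases hp.dvd_mul.mp hp2 with h4 | h4
          · apply Dvd.dvd.mul_right
            rw [hρ]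
            apply Finset.dvd_prod_of_mem
            rw [Finset.mem_erase]
            exact ⟨hp2ne, Nat.mem_primeFactors.mpr ⟨hp, h4, hgpos.ne'⟩⟩
          · exact Dvd.dvd.mul_left h4 _
        have h5 : p ∣ 2 := by
          have h7 : ρ * n - (ρ * n - 2) = 2 := by omega
          rw [← h7]
          exact Nat.dvd_sub h3 hp1
        rw [Nat.prime_dvd_prime_iff_eq hp Nat.prime_two] at h5
        exact hp2ne h5
    have h3 := HS _ hcop
    obtain ⟨s, hs⟩ : ∃ s, ρ = 2 * s + 1 := ⟨ρ / 2, by omega⟩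
    have hDe : (D : ℤ) = 2 * g' * n := by
      have : D = 2 * g' * n := by rw [hn, hg2]
      exact_mod_cast this
    have hcast : ((ρ * n - 2 : ℕ) : ℤ) = (ρ : ℤ) * n - 2 := by
      push_cast [Nat.cast_sub (by omega : 2 ≤ ρ * n)]; ring
    have hDn : D = 2 * (g' * n) := by rw [hn, hg2]; ring
    have hge : 6 * g' ≤ g' * n := by
      calc 6 * g' = g' * 6 := by ring
        _ ≤ g' * n := Nat.mul_le_mul_left _ hn6
    have r1 : ((ρ * n - 2) * g') % D = g' * n - 2 * g' := by
      have : (ρ * n - 2) * g' = (g' * n - 2 * g') + s * D := by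
        have e3 : ((g' * n - 2 * g' : ℕ) : ℤ) = (g' : ℤ) * n - 2 * g' := by
          push_cast [Nat.cast_sub (by omega : 2 * g' ≤ g' * n)]; ring
        zify
        rw [hcast, e3, hDe, hs]; push_cast; ring
      rw [this, Nat.add_mul_mod_self_right]
      exact Nat.mod_eq_of_lt (by omega)
    have r2 : ((ρ * n - 2) * (3 * g')) % D = g' * n - 6 * g' := by
      have : (ρ * n - 2) * (3 * g') = (g' * n - 6 * g') + (3 * s + 1) * D := by
        have e3 : ((g' * n - 6 * g' : ℕ) : ℤ) = (g' : ℤ) * n - 6 * g' := by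
          push_cast [Nat.cast_sub (by omega : 6 * g' ≤ g' * n)]; ring
        zify
        rw [hcast, e3, hDe, hs]; push_cast; ring
      rw [this, Nat.add_mul_mod_self_right]
      exact Nat.mod_eq_of_lt (by omega)
    have r3 : ((ρ * n - 2) * g) % D = D - 4 * g' := by
      have : (ρ * n - 2) * g = (D - 4 * g') + (2 * s) * D := by
        have e3 : ((D - 4 * g' : ℕ) : ℤ) = (D : ℤ) - 4 * g' := by
          push_cast [Nat.cast_sub (by omega : 4 * g' ≤ D)]; ring
        zify
        rw [hcast, e3, hDe, hs, hg2]; push_cast; ring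
      rw [this, Nat.add_mul_mod_self_right]
      exact Nat.mod_eq_of_lt (by omega)
    rw [r1, r2, r3] at h3
    omega

end Pool.Agent.Helper18.Roh
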