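import Pool.Agent.Helper18.Roh.Defs
import Pool.Agent.Helper18.Roh.NoAP

namespace Pool.Agent.Helper18.Roh

open Finset

theorem isAlgebraic_ofReal {x : ℝ} : IsAlgebraic ℚ (x : ℂ) ↔ IsAlgebraic ℚ x :=
  isAlgebraic_algebraMap_iff (R := ℚ) (S := ℝ) (A := ℂ) (algebraMap ℝ ℂ).injective

theorem isAlgebraic_ratCast (q : ℚ) : IsAlgebraic ℚ (q : ℝ) := by
  have := isAlgebraic_algebraMap (R := ℚ) (A := ℝ) q
  simpa using this

theorem isAlgebraic_gamma_shift (D y k : ℕ) (hD : 0 < D) (hy : 0 < y) :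
    IsAlgebraic ℚ (Real.Gamma (((y + k * D : ℕ) : ℝ) / D) / Real.Gamma ((y : ℝ) / D)) := by
  have hD' : (D : ℝ) ≠ 0 := by exact_mod_cast hD.ne'
  have hpos : 0 < Real.Gamma ((y : ℝ) / D) := Real.Gamma_pos_of_pos (by positivity)
  induction k with
  | zero =>
    simp only [zero_mul, add_zero]
    rw [div_self hpos.ne']
    exact isAlgebraic_one
  | succ k ih =>
    have e : (((y + (k + 1) * D : ℕ) : ℝ) / D) = ((y + k * D : ℕ) : ℝ) / D + 1 := by
      push_cast; field_simp; ring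
    have hne : ((y + k * D : ℕ) : ℝ) / D ≠ 0 := by positivity
    rw [e, Real.Gamma_add_one hne, mul_div_assoc]
    apply IsAlgebraic.mul _ ih
    have : ((y + k * D : ℕ) : ℝ) / D = (((y + k * D : ℕ) : ℚ) / D : ℚ) := by push_cast; rfl
    rw [this]
    exact isAlgebraic_ratCast _

theorem isAlgebraic_gamma_mod (D x y : ℕ) (hD : 0 < D) (hx : 0 < x) (hy : 0 < y)
    (hxy : x % D = y % D) :
    IsAlgebraic ℚ (Real.Gamma ((x : ℝ) / D) / Real.Gamma ((y : ℝ) / D)) := by
  rcases le_total y x with h | h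
  · obtain ⟨k, hk⟩ : D ∣ x - y := (Nat.modEq_iff_dvd' h).mp hxy.symm
    have : x = y + k * D := by rw [mul_comm k D, ← hk]; omega
    rw [this]
    exact isAlgebraic_gamma_shift D y k hD hy
  · obtain ⟨k, hk⟩ : D ∣ y - x := (Nat.modEq_iff_dvd' h).mp hxy
    have : y = x + k * D := by rw [mul_comm k D, ← hk]; omega
    rw [this]
    have := (isAlgebraic_gamma_shift D x k hD hx).inv
    rwa [inv_div] at this

theorem fract_natMul (D m a : ℕ) :
    Int.fract ((m : ℚ) * ((a : ℚ) / D)) = (((m * a) % D : ℕ) : ℚ) / D := by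
  have : (m : ℚ) * ((a : ℚ) / D) = ((m * a : ℕ) : ℚ) / ((D : ℕ) : ℚ) := by push_cast; ring
  rw [this, Int.fract_div_natCast_eq_div_natCast_mod]

/-- the theorem of Wolfart and Wüstholz in terms of residues and gamma values. -/
theorem ww_nat (hWW : WolfartWustholz) {D a b c d : ℕ} (hD : 0 < D)
    (ha : 0 < a) (haD : a < D) (hb : 0 < b) (hbD : b < D)
    (hc : 0 < c) (hcD : c < D) (hd : 0 < d) (hdD : d < D)
    (hs : (a + b) % D ≠ 0) (hmod : (a + b) % D = (c + d) % D)
    (halg : IsAlgebraic ℚ (Real.Gamma ((a : ℝ) / D) * Real.Gamma ((b : ℝ) / D) /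
      (Real.Gamma ((c : ℝ) / D) * Real.Gamma ((d : ℝ) / D)))) :
    ∀ m : ℕ, Nat.Coprime m D → (m * a) % D + (m * b) % D = (m * c) % D + (m * d) % D := by
  intro m hm
  have hDR : (0 : ℝ) < D := by exact_mod_cast hD
  have hDQ : (0 : ℚ) < D := by exact_mod_cast hD
  have hG : ∀ x : ℕ, 0 < x → 0 < Real.Gamma ((x : ℝ) / D) := fun x hx =>
    Real.Gamma_pos_of_pos (by positivity)
  have hbeta : ∀ x y : ℕ, 0 < x → 0 < y →
      Complex.betaIntegral ((((x : ℚ) / D : ℚ)) : ℂ) ((((y : ℚ) / D : ℚ)) : ℂ) =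
      ((Real.Gamma ((x : ℝ) / D) * Real.Gamma ((y : ℝ) / D) /
        Real.Gamma (((x + y : ℕ) : ℝ) / D) : ℝ) : ℂ) := by
    intro x y hx hy
    have ex : ((((x : ℚ) / D : ℚ)) : ℂ) = (((x : ℝ) / D : ℝ) : ℂ) := by push_cast; rfl
    have ey : ((((y : ℚ) / D : ℚ)) : ℂ) = (((y : ℝ) / D : ℝ) : ℂ) := by push_cast; rfl
    have h1 : 0 < ((((x : ℝ) / D : ℝ) : ℂ)).re := by rw [Complex.ofReal_re]; positivity
    have h2 : 0 < ((((y : ℝ) / D : ℝ) : ℂ)).re := by rw [Complex.ofReal_re]; positivity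
    have h3 := Complex.Gamma_mul_Gamma_eq_betaIntegral h1 h2
    have h4 : (((x : ℝ) / D : ℝ) : ℂ) + (((y : ℝ) / D : ℝ) : ℂ) =
        (((((x + y : ℕ) : ℝ)) / D : ℝ) : ℂ) := by push_cast; ring
    rw [h4, Complex.Gamma_ofReal, Complex.Gamma_ofReal, Complex.Gamma_ofReal] at h3
    have h5 : ((Real.Gamma (((x + y : ℕ) : ℝ) / D) : ℝ) : ℂ) ≠ 0 := by
      exact_mod_cast (hG (x + y) (by omega)).ne'
    rw [ex, ey]
    push_cast
    push_cast at h3 h5
    rw [h3]
    field_simp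
  have hnotint : ∀ x : ℕ, x % D ≠ 0 → ∀ z : ℤ, ((x : ℚ) / D) ≠ z := by
    intro x hx z hz
    apply hx
    have h1 : (x : ℚ) = z * D := by rw [← hz]; field_simp
    have h2 : (x : ℤ) = z * D := by exact_mod_cast h1
    have h3 : (D : ℤ) ∣ (x : ℤ) := ⟨z, by rw [h2]; ring⟩
    have h4 : D ∣ x := by exact_mod_cast h3
    exact Nat.mod_eq_zero_of_dvd h4
  have hadd : ∀ x y : ℕ, ((x : ℚ) / D) + ((y : ℚ) / D) = ((x + y : ℕ) : ℚ) / D := by
    intro x y; push_cast; ring
  have key := hWW D ((a : ℚ) / D) ((b : ℚ) / D) ((c : ℚ) / D) ((d : ℚ) / D) hD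
    (by positivity) (by positivity) (by positivity) (by positivity)
    (by
      intro x hx
      simp only [Set.mem_insert_iff, Set.mem_singleton_iff] at hx
      rcases hx with rfl | rfl | rfl | rfl
      · exact ⟨a, by push_cast; field_simp⟩
      · exact ⟨b, by push_cast; field_simp⟩
      · exact ⟨c, by push_cast; field_simp⟩
      · exact ⟨d, by push_cast; field_simp⟩)
    (by
      intro x hx
      simp only [Set.mem_insert_iff, Set.mem_singleton_iff] at hx
      rcases hx with rfl | rfl | rfl | rfl | rfl | rfl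
      · exact hnotint a (by rw [Nat.mod_eq_of_lt haD]; omega)
      · exact hnotint b (by rw [Nat.mod_eq_of_lt hbD]; omega)
      · rw [hadd]; exact hnotint _ hs
      · exact hnotint c (by rw [Nat.mod_eq_of_lt hcD]; omega)
      · exact hnotint d (by rw [Nat.mod_eq_of_lt hdD]; omega)
      · rw [hadd]; exact hnotint _ (by rw [← hmod]; exact hs))
    (by
      rw [hbeta a b ha hb, hbeta c d hc hd, ← Complex.ofReal_div, isAlgebraic_ofReal]
      have hGs := isAlgebraic_gamma_mod D (c + d) (a + b) hD (by omega) (by omega) hmod.symm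
      have h6 := halg.mul hGs
      have g3 := (hG c hc).ne'
      have g4 := (hG d hd).ne'
      have g5 := (hG (a + b) (by omega)).ne'
      have g6 := (hG (c + d) (by omega)).ne'
      have e : ∀ x1 x2 x3 x4 x5 x6 : ℝ, x3 ≠ 0 → x4 ≠ 0 → x5 ≠ 0 → x6 ≠ 0 →
          x1 * x2 / x5 / (x3 * x4 / x6) = x1 * x2 / (x3 * x4) * (x6 / x5) := by
        intro x1 x2 x3 x4 x5 x6 h3 h4 h5 h6
        field_simp
      rw [e _ _ _ _ _ _ g3 g4 g5 g6]
      exact h6)
    m hm
  rw [hadd a b, hadd c d] at key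
  simp only [fract_natMul] at key
  have h7 : (m * (a + b)) % D = (m * (c + d)) % D := by
    rw [Nat.mul_mod, hmod, ← Nat.mul_mod]
  rw [h7] at key
  have h8 : (((m * a) % D : ℕ) : ℚ) + (((m * b) % D : ℕ) : ℚ) =
      (((m * c) % D : ℕ) : ℚ) + (((m * d) % D : ℕ) : ℚ) := by
    have h9 := sub_left_inj.mp key
    rw [← add_div, ← add_div] at h9
    exact (div_left_inj' hDQ.ne').mp h9
  exact_mod_cast h8

open Classical in
/-- level sets of `j ↦ Γ(j/D)` modulo algebraic multiples. -/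
noncomputable def level (D : ℕ) (lam : ℝ) : Finset ℕ :=
  (Finset.Ico 1 D).filter fun j => ∃ α : ℝ, IsAlgebraic ℚ α ∧
    Real.Gamma ((j : ℝ) / D) = α * lam

theorem mem_level {D : ℕ} {lam : ℝ} {j : ℕ} : j ∈ level D lam ↔
    (1 ≤ j ∧ j < D) ∧ ∃ α : ℝ, IsAlgebraic ℚ α ∧ Real.Gamma ((j : ℝ) / D) = α * lam := by
  classical
  simp [level]

theorem algebraic_of_level {D : ℕ} {lam mu : ℝ} {a b c d : ℕ}
    (ha : a ∈ level D lam) (hb : b ∈ level D mu) (hc : c ∈ level D lam) (hd : d ∈ level D mu) :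
    IsAlgebraic ℚ (Real.Gamma ((a : ℝ) / D) * Real.Gamma ((b : ℝ) / D) /
      (Real.Gamma ((c : ℝ) / D) * Real.Gamma ((d : ℝ) / D))) := by
  obtain ⟨⟨ha1, ha2⟩, α, hα, hα'⟩ := mem_level.mp ha
  obtain ⟨⟨hb1, hb2⟩, β, hβ, hβ'⟩ := mem_level.mp hb
  obtain ⟨⟨hc1, hc2⟩, γ, hγ, hγ'⟩ := mem_level.mp hc
  obtain ⟨⟨hd1, hd2⟩, δ, hδ, hδ'⟩ := mem_level.mp hd
  have hDR : (0 : ℝ) < D := by exact_mod_cast (by omega : 0 < D)
  have hG : ∀ x : ℕ, 0 < x → Real.Gamma ((x : ℝ) / D) ≠ 0 := fun x hx =>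
    (Real.Gamma_pos_of_pos (by positivity)).ne'
  have h1 := hG c (by omega)
  have h2 := hG d (by omega)
  rw [hγ'] at h1
  rw [hδ'] at h2
  have hγ0 : γ ≠ 0 := left_ne_zero_of_mul h1
  have hδ0 : δ ≠ 0 := left_ne_zero_of_mul h2
  have hl : lam ≠ 0 := right_ne_zero_of_mul h1
  have hm : mu ≠ 0 := right_ne_zero_of_mul h2
  rw [hα', hβ', hγ', hδ']
  have : α * lam * (β * mu) / (γ * lam * (δ * mu)) = α * β * (γ⁻¹ * δ⁻¹) := by
    field_simp
  rw [this]
  exact (hα.mul hβ).mul (hγ.inv.mul hδ.inv)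

/-- a level set contains no non-trivial three term progression with middle term of order at
least six. -/
theorem threeAPFree_level (hWW : WolfartWustholz) (D : ℕ) (lam : ℝ) :
    ThreeAPFree (((level D lam).filter fun c => 6 * Nat.gcd c D ≤ D : Finset ℕ) : Set ℕ) := by
  intro a ha b hb c hc habc
  simp only [Finset.coe_filter, Set.mem_ofPred_eq] at ha hb hc
  by_contra hne
  obtain ⟨⟨ha1, ha2⟩, -⟩ := mem_level.mp ha.1
  obtain ⟨⟨hb1, hb2⟩, -⟩ := mem_level.mp hb.1
  obtain ⟨⟨hc1, hc2⟩, -⟩ := mem_level.mp hc.1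
  have hD : 0 < D := by omega
  have hs : (a + c) % D ≠ 0 := by
    intro h0
    have h1 : D ∣ b + b := by rw [← habc]; exact Nat.dvd_of_mod_eq_zero h0
    obtain ⟨k, hk⟩ := h1
    have hk1 : k = 1 := by
      have h2 : D * k < D * 2 := by omega
      have h3 : k < 2 := Nat.lt_of_mul_lt_mul_left h2
      have h4 : k ≠ 0 := by rintro rfl; omega
      omega
    rw [hk1, mul_one] at hk
    have hg : Nat.gcd b D = b := by
      apply Nat.gcd_eq_left
      exact ⟨2, by omega⟩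
    have := hb.2
    rw [hg] at this
    omega
  have h := ww_nat hWW hD (a := a) (b := c) (c := b) (d := b) (by omega) ha2 (by omega) hc2
    (by omega) hb2 (by omega) hb2 hs (by rw [habc])
    (algebraic_of_level ha.1 hc.1 hb.1 hb.1)
  refine no_ap D a c b (by omega) ha2 (by omega) hc2 (by omega) (by omega) ?_ hb.2 ?_
  · rintro rfl; omega
  · intro m hm
    have := h m hm
    omega

/-- at most ten residues have order less than six. -/
theorem card_small_order (D : ℕ) :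
    ((Finset.Ico 1 D).filter fun c => ¬ 6 * Nat.gcd c D ≤ D).card ≤ 10 := by
  have h10 : ((Finset.range 6 ×ˢ Finset.range 6).filter
      (fun x : ℕ × ℕ => 2 ≤ x.1 ∧ 1 ≤ x.2 ∧ x.2 < x.1)).card = 10 := by decide
  rw [← h10]
  apply Finset.card_le_card_of_injOn (fun c => (D / Nat.gcd c D, c / Nat.gcd c D))
  · intro c hc
    simp only [Finset.coe_filter, Finset.mem_Ico, Set.mem_ofPred_eq] at hc
    obtain ⟨⟨hc1, hc2⟩, hc3⟩ := hc
    have hg : 0 < Nat.gcd c D := Nat.gcd_pos_of_pos_left _ (by omega)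
    obtain ⟨x, hx⟩ : Nat.gcd c D ∣ c := Nat.gcd_dvd_left ..
    obtain ⟨y, hy⟩ : Nat.gcd c D ∣ D := Nat.gcd_dvd_right ..
    have e1 : c / Nat.gcd c D = x := Nat.div_eq_of_eq_mul_right hg hx
    have e2 : D / Nat.gcd c D = y := Nat.div_eq_of_eq_mul_right hg hy
    simp only [Finset.coe_filter, Finset.mem_product, Finset.mem_range, Set.mem_ofPred_eq]
    rw [e1, e2]
    have hxy : x < y := by
      have : Nat.gcd c D * x < Nat.gcd c D * y := by rw [← hx, ← hy]; exact hc2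
      exact Nat.lt_of_mul_lt_mul_left this
    have hx1 : 1 ≤ x := by
      rcases Nat.eq_zero_or_pos x with h0 | h0
      · subst h0; omega
      · exact h0
    have hy6 : y < 6 := by
      by_contra hno
      apply hc3
      have : Nat.gcd c D * 6 ≤ Nat.gcd c D * y := Nat.mul_le_mul_left _ (by omega)
      omega
    omega
  · intro c hc c' hc' h
    simp only [Finset.coe_filter, Finset.mem_Ico, Set.mem_ofPred_eq] at hc hc'
    simp only [Prod.mk.injEq] at h
    obtain ⟨h1, h2⟩ := h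
    have hg : 0 < Nat.gcd c D := Nat.gcd_pos_of_pos_left _ (by omega)
    have hg' : 0 < Nat.gcd c' D := Nat.gcd_pos_of_pos_left _ (by omega)
    have hDpos : 0 < D := by omega
    have e1 := Nat.div_mul_cancel (Nat.gcd_dvd_right c D)
    have e2 := Nat.div_mul_cancel (Nat.gcd_dvd_right c' D)
    have hgg : Nat.gcd c D = Nat.gcd c' D := by
      rw [h1] at e1
      have h3 : D / Nat.gcd c' D * Nat.gcd c D = D / Nat.gcd c' D * Nat.gcd c' D := by
        rw [e1, e2]
      exact Nat.eq_of_mul_eq_mul_left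
        (Nat.div_pos (Nat.le_of_dvd hDpos (Nat.gcd_dvd_right c' D)) hg') h3
    have e3 := Nat.div_mul_cancel (Nat.gcd_dvd_left c D)
    have e4 := Nat.div_mul_cancel (Nat.gcd_dvd_left c' D)
    rw [← e3, ← e4, h2, hgg]

theorem card_level_le (hWW : WolfartWustholz) (D : ℕ) (lam : ℝ) :
    (level D lam).card ≤ rothNumberNat D + 10 := by
  classical
  rw [← Finset.card_filter_add_card_filter_not (s := level D lam) (fun c => 6 * Nat.gcd c D ≤ D)]
  apply Nat.add_le_add
  · apply ThreeAPFree.le_rothNumberNat _ (threeAPFree_level hWW D lam) _ rfl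
    intro x hx
    exact (mem_level.mp (Finset.mem_filter.mp hx).1).1.2
  · refine le_trans (Finset.card_le_card ?_) (card_small_order D)
    intro x hx
    rw [Finset.mem_filter] at hx ⊢
    refine ⟨?_, hx.2⟩
    rw [Finset.mem_Ico]
    exact (mem_level.mp hx.1).1

end Pool.Agent.Helper18.Roh
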