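import Mathlib

/-! Elementary number theory for level sets of the gamma function at rational points. -/

namespace Pool.Agent.Helper18.Roh

open Finset

/-- choice of a multiplier: `k δ` is far from `0` modulo `g` while `k n - 1` is prime to `g`. -/
theorem exists_k (g n : ℕ) (hg : 0 < g) (hn : 0 < n) (δ : ℤ) (hδ : ¬ (g : ℤ) ∣ δ)
    (h2 : Even n ∨ ¬ (g : ℤ) ∣ 2 * δ) :
    ∃ k : ℕ, 0 < k ∧ Nat.Coprime (k * n - 1) g ∧
      ∀ f : ℤ, (g : ℤ) ∣ (k : ℤ) * δ - f → (g : ℤ) ≤ 3 * |f| := by
  classical
  have hδ0 : δ ≠ 0 := fun h => hδ (h ▸ dvd_zero _)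
  set h : ℕ := Int.gcd δ g with hh
  have hhpos : 0 < h := Int.gcd_pos_of_ne_zero_left _ hδ0
  obtain ⟨i, hi⟩ : (h : ℤ) ∣ δ := Int.gcd_dvd_left ..
  obtain ⟨q, hq⟩ : h ∣ g := by
    have : (h : ℤ) ∣ g := Int.gcd_dvd_right ..
    exact_mod_cast this
  have hq0 : 0 < q := by
    rcases Nat.eq_zero_or_pos q with h0 | h0
    · subst h0; omega
    · exact h0
  have hcop : IsCoprime i (q : ℤ) := by
    have h1 : Int.gcd ((h : ℤ) * i) ((h : ℤ) * q) = h * Int.gcd i q := by
      rw [Int.gcd_mul_left]; simp
    have h3 : Int.gcd ((h : ℤ) * i) ((h : ℤ) * q) = h := by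
      rw [← hi]
      have : ((h : ℤ) * q) = g := by rw [hq]; push_cast; ring
      rw [this]
    rw [h3] at h1
    have h4 : Int.gcd i q = 1 := by
      have : h * 1 = h * Int.gcd i q := by rw [mul_one]; exact h1
      exact (Nat.eq_of_mul_eq_mul_left hhpos this).symm
    exact Int.isCoprime_iff_gcd_eq_one.mpr h4
  have hq1 : q ≠ 1 := by
    rintro rfl
    apply hδ
    rw [hi, hq]; push_cast
    simp
  -- general construction
  have key : ∀ q0 : ℕ, q0.Prime → q0 ∣ q → ∀ kk : ℕ, 0 < kk →
      (¬ q0 ∣ (q / q0) * (∏ p ∈ g.primeFactors.erase q0, p) * kk * n - 1) →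
      (∀ f' : ℤ, (q0 : ℤ) ∣ ((∏ p ∈ g.primeFactors.erase q0, p : ℕ) : ℤ) * kk * i - f' →
        (q0 : ℤ) ≤ 3 * |f'|) →
      ∃ k : ℕ, 0 < k ∧ Nat.Coprime (k * n - 1) g ∧
        ∀ f : ℤ, (g : ℤ) ∣ (k : ℤ) * δ - f → (g : ℤ) ≤ 3 * |f| := by
    intro q0 hq0p hq0q kk hkk hnd hfar
    set t : ℕ := ∏ p ∈ g.primeFactors.erase q0, p with ht
    have htpos : 0 < t := Finset.prod_pos fun p hp =>
      (Nat.prime_of_mem_primeFactors (Finset.mem_of_mem_erase hp)).pos
    obtain ⟨w, hw⟩ := hq0q
    have hq0pos := hq0p.pos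
    have hwpos : 0 < w := by
      rcases Nat.eq_zero_or_pos w with h0 | h0
      · subst h0; omega
      · exact h0
    have hqdiv : q / q0 = w := by rw [hw]; exact Nat.mul_div_cancel_left w hq0pos
    rw [hqdiv] at hnd
    refine ⟨w * t * kk, by positivity, ?_, ?_⟩
    · have hpos : 0 < w * t * kk * n := by positivity
      apply Nat.coprime_of_dvd
      intro p hp hp1 hp2
      by_cases hpq : p = q0
      · subst hpq; exact hnd hp1
      · have hpt : p ∣ t := by
          rw [ht]
          apply Finset.dvd_prod_of_mem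
          rw [Finset.mem_erase]
          exact ⟨hpq, Nat.mem_primeFactors.mpr ⟨hp, hp2, hg.ne'⟩⟩
        have h5 : p ∣ w * t * kk * n := by
          apply Dvd.dvd.mul_right
          apply Dvd.dvd.mul_right
          exact Dvd.dvd.mul_left hpt w
        have h6 : p ∣ 1 := by
          have h7 : w * t * kk * n - (w * t * kk * n - 1) = 1 := by omega
          rw [← h7]
          exact Nat.dvd_sub h5 hp1
        exact hp.one_lt.ne' (Nat.dvd_one.mp h6)
    · intro f hf
      -- g = q0 * (h w)
      have hgfac : (g : ℤ) = q0 * (h * w) := by rw [hq, hw]; push_cast; ring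
      have e1 : ((w * t * kk : ℕ) : ℤ) * δ = (h * w) * (t * kk * i) := by
        rw [hi]; push_cast; ring
      rw [e1] at hf
      have hdf : ((h : ℤ) * w) ∣ f := by
        have h8 : ((h : ℤ) * w) ∣ (h * w) * (t * kk * i) - f :=
          dvd_trans ⟨q0, by rw [hgfac]; ring⟩ hf
        have h9 : ((h : ℤ) * w) ∣ (h * w) * (t * kk * i) := dvd_mul_right _ _
        have := dvd_sub h9 h8
        simpa using this
      obtain ⟨f', rfl⟩ := hdf
      have hhw : (0 : ℤ) < h * w := by positivity
      have h10 : (q0 : ℤ) ∣ t * kk * i - f' := by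
        have h11 : (h * w : ℤ) * q0 ∣ (h * w) * (t * kk * i - f') := by
          have : (h * w : ℤ) * q0 = g := by rw [hgfac]; ring
          rw [this]
          convert hf using 1
          ring
        exact (mul_dvd_mul_iff_left hhw.ne').mp h11
      have h12 := hfar f' h10
      rw [hgfac, abs_mul, abs_of_pos hhw]
      nlinarith
  by_cases hodd : ∃ q0 : ℕ, q0.Prime ∧ q0 ∣ q ∧ q0 ≠ 2
  · obtain ⟨q0, hq0p, hq0q, hq02⟩ := hodd
    have hq0odd : q0 % 2 = 1 := (hq0p.eq_two_or_odd).resolve_left hq02
    have : Fact q0.Prime := ⟨hq0p⟩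
    set t : ℕ := ∏ p ∈ g.primeFactors.erase q0, p with ht
    -- t is prime to q0
    have htcop : Nat.Coprime t q0 := by
      rw [ht]
      apply Nat.Coprime.prod_left
      intro p hp
      rw [Finset.mem_erase] at hp
      exact (Nat.coprime_primes (Nat.prime_of_mem_primeFactors hp.2) hq0p).mpr hp.1
    have htz : (t : ZMod q0) ≠ 0 := by
      intro h0
      rw [ZMod.natCast_eq_zero_iff] at h0
      have := Nat.Coprime.eq_one_of_dvd htcop.symm h0
      exact hq0p.one_lt.ne' this
    have hiz : (i : ZMod q0) ≠ 0 := by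
      intro h0
      rw [ZMod.intCast_zmod_eq_zero_iff_dvd] at h0
      have h1 : (q0 : ℤ) ∣ q := by exact_mod_cast hq0q
      have := hcop.isUnit_of_dvd' h0 h1
      rw [Int.isUnit_iff] at this
      have := hq0p.one_lt
      omega
    -- the two candidates
    have hcand : ∀ j : ℕ, 0 < j → j < q0 → ∃ kk : ℕ, 0 < kk ∧ (kk : ZMod q0) = j * ((t : ZMod q0) * i)⁻¹ := by
      intro j hj hj'
      refine ⟨((j : ZMod q0) * ((t : ZMod q0) * i)⁻¹).val, ?_, by simp⟩
      apply Nat.pos_of_ne_zero
      rw [ne_eq, ZMod.val_eq_zero]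
      have hjz : (j : ZMod q0) ≠ 0 := by
        intro h0
        rw [ZMod.natCast_eq_zero_iff] at h0
        exact absurd (Nat.le_of_dvd hj h0) (by omega)
      exact mul_ne_zero hjz (inv_ne_zero (mul_ne_zero htz hiz))
    have h3le : 3 ≤ q0 := by
      have := hq0p.two_le
      omega
    obtain ⟨k1, hk1, hk1'⟩ := hcand ((q0 - 1) / 2) (by omega) (by omega)
    obtain ⟨k2, hk2, hk2'⟩ := hcand ((q0 + 1) / 2) (by omega) (by omega)
    have hfar : ∀ (j kk : ℕ), (j = (q0 - 1) / 2 ∨ j = (q0 + 1) / 2) →
        (kk : ZMod q0) = j * ((t : ZMod q0) * i)⁻¹ →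
        ∀ f' : ℤ, (q0 : ℤ) ∣ (t : ℤ) * kk * i - f' → (q0 : ℤ) ≤ 3 * |f'| := by
      intro j kk hj hkk f' hf'
      have h1 : (((t : ℤ) * kk * i - f' : ℤ) : ZMod q0) = 0 := by
        rw [ZMod.intCast_zmod_eq_zero_iff_dvd]; exact hf'
      push_cast at h1
      rw [hkk] at h1
      have h2 : ((t : ZMod q0)) * (j * ((t : ZMod q0) * i)⁻¹) * i = j := by
        field_simp
      rw [h2] at h1
      have h3 : (q0 : ℤ) ∣ (j : ℤ) - f' := by
        rw [← ZMod.intCast_zmod_eq_zero_iff_dvd]
        push_cast
        exact h1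
      obtain ⟨z, hz⟩ := h3
      have h4 : f' = j - q0 * z := by linarith
      have hjb : (q0 : ℤ) - 1 ≤ 2 * j ∧ 2 * (j : ℤ) ≤ q0 + 1 := by
        constructor <;> rcases hj with hj | hj <;> subst hj <;> push_cast <;> omega
      rcases le_or_gt z 0 with hz0 | hz0
      · have : (j : ℤ) ≤ f' := by nlinarith
        have := le_abs_self f'
        nlinarith
      · have : f' ≤ j - q0 := by nlinarith
        have := neg_le_abs f'
        nlinarith
    by_cases hb : q0 ∣ (q / q0) * t * k1 * n - 1
    · refine key q0 hq0p hq0q k2 hk2 ?_ (hfar _ k2 (Or.inr rfl) hk2')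
      intro hb2
      -- both conditions give k1 = k2 mod q0
      obtain ⟨w, hw⟩ := hq0q
      have hq0pos := hq0p.pos
      have hqdiv : q / q0 = w := by rw [hw]; exact Nat.mul_div_cancel_left w hq0pos
      have hwpos : 0 < w := by
        rcases Nat.eq_zero_or_pos w with h0 | h0
        · subst h0; omega
        · exact h0
      have htpos : 0 < t := Nat.pos_of_ne_zero (by rintro h0; rw [h0] at htz; simp at htz)
      rw [hqdiv] at hb hb2
      have hone : ∀ kk : ℕ, 0 < kk → q0 ∣ w * t * kk * n - 1 →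
          ((w : ZMod q0) * t * kk * n = 1) := by
        intro kk hkk hd
        have hpos : 1 ≤ w * t * kk * n := Nat.one_le_iff_ne_zero.mpr (by positivity)
        have := (ZMod.natCast_eq_zero_iff _ _).mpr hd
        rw [Nat.cast_sub hpos] at this
        push_cast at this
        exact sub_eq_zero.mp this
      have e1 := hone k1 hk1 hb
      have e2 := hone k2 hk2 hb2
      have hne : ((w : ZMod q0) * t * n) ≠ 0 := by
        intro h0
        have : (w : ZMod q0) * t * k1 * n = (w * t * n) * k1 := by ring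
        rw [this, h0, zero_mul] at e1
        exact zero_ne_one e1
      have e3 : (k1 : ZMod q0) = k2 := by
        have : (w : ZMod q0) * t * n * k1 = w * t * n * k2 := by
          calc (w : ZMod q0) * t * n * k1 = w * t * k1 * n := by ring
            _ = w * t * k2 * n := by rw [e1, e2]
            _ = _ := by ring
        exact mul_left_cancel₀ hne this
      rw [hk1', hk2'] at e3
      have e4 : (((q0 - 1) / 2 : ℕ) : ZMod q0) = (((q0 + 1) / 2 : ℕ) : ZMod q0) :=
        mul_right_cancel₀ (inv_ne_zero (mul_ne_zero htz hiz)) e3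
      rw [ZMod.natCast_eq_natCast_iff'] at e4
      rw [Nat.mod_eq_of_lt (by omega), Nat.mod_eq_of_lt (by omega)] at e4
      omega
    · exact key q0 hq0p hq0q k1 hk1 hb (hfar _ k1 (Or.inl rfl) hk1')
  · push Not at hodd
    -- all prime factors of q are 2
    have h2q : 2 ∣ q := by
      obtain ⟨p, hp, hpq⟩ := Nat.exists_prime_and_dvd hq1
      have := hodd p hp hpq
      rwa [this] at hpq
    have hiodd : i % 2 = 1 ∨ i % 2 = -1 := by
      rcases Int.even_or_odd i with he | ho
      · exfalso
        obtain ⟨x, hx⟩ := he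
        have h1 : (2 : ℤ) ∣ i := ⟨x, by rw [hx]; ring⟩
        have h3 : (2 : ℤ) ∣ q := by exact_mod_cast h2q
        have := hcop.isUnit_of_dvd' h1 h3
        rw [Int.isUnit_iff] at this
        omega
      · left; exact Int.odd_iff.mp ho
    have htodd : (∏ p ∈ g.primeFactors.erase 2, p) % 2 = 1 := by
      have : Nat.Coprime (∏ p ∈ g.primeFactors.erase 2, p) 2 := by
        apply Nat.Coprime.prod_left
        intro p hp
        rw [Finset.mem_erase] at hp
        exact (Nat.coprime_primes (Nat.prime_of_mem_primeFactors hp.2) Nat.prime_two).mpr hp.1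
      rw [Nat.coprime_two_right] at this
      exact Nat.odd_iff.mp this
    refine key 2 Nat.prime_two h2q 1 one_pos ?_ ?_
    · -- even number minus one is odd
      have heven : Even ((q / 2) * (∏ p ∈ g.primeFactors.erase 2, p) * 1 * n) := by
        rcases h2 with h2 | h2
        · exact Even.mul_left h2 _
        · -- 4 ∣ q
          have h4 : Even (q / 2) := by
            by_contra hno
            apply h2
            have hoddq : ¬ 2 ∣ q / 2 := fun hd => hno ((even_iff_two_dvd).mpr hd)
            -- q / 2 has no prime factor, so q / 2 = 1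
            have hq2 : q / 2 = 1 := by
              by_contra hne
              obtain ⟨p, hp, hpq⟩ := Nat.exists_prime_and_dvd hne
              have := hodd p hp (dvd_trans hpq (Nat.div_dvd_of_dvd h2q))
              rw [this] at hpq
              exact hoddq hpq
            have hq2' : q = 2 := by omega
            rw [hi, hq, hq2']
            push_cast
            exact ⟨i, by ring⟩
          exact Even.mul_right (Even.mul_right (Even.mul_right h4 _) _) _
      have hpos : 0 < (q / 2) * (∏ p ∈ g.primeFactors.erase 2, p) * 1 * n := by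
        have h5 : 0 < q / 2 := by omega
        have h6 : 0 < ∏ p ∈ g.primeFactors.erase 2, p := by
          apply Nat.pos_of_ne_zero
          intro h0; rw [h0] at htodd; omega
        positivity
      rw [Nat.even_iff] at heven
      omega
    · intro f' hf'
      obtain ⟨z, hz⟩ := hf'
      have h7 : f' % 2 = 1 := by
        have h8 : (((∏ p ∈ g.primeFactors.erase 2, p : ℕ) : ℤ) * (1 : ℕ) * i) % 2 = 1 := by
          have h9 : ((∏ p ∈ g.primeFactors.erase 2, p : ℕ) : ℤ) % 2 = 1 := by exact_mod_cast htodd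
          have h10 : i % 2 = 1 := by omega
          rw [Nat.cast_one, mul_one, Int.mul_emod, h9, h10]
          norm_num
        omega
      have h11 : f' ≠ 0 := by rintro rfl; simp at h7
      have h12 : 1 ≤ |f'| := Int.one_le_abs h11
      push_cast
      linarith

end Pool.Agent.Helper18.Roh
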