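import Pool.Agent.Helper18.Roh.Count

namespace Pool.Agent.Helper18.Roh

open Finset

/-- multiplication by a unit permutes the non-zero residues. -/
theorem sum_sq_perm (p x : ℕ) (hp : p.Prime) (hx : 0 < x) (hxp : x < p) :
    ∑ m ∈ Finset.Ico 1 p, (((m * x) % p : ℕ) : ℤ) ^ 2 = ∑ m ∈ Finset.Ico 1 p, (m : ℤ) ^ 2 := by
  have hcop : Nat.Coprime x p :=
    (Nat.coprime_of_lt_prime hx.ne' hxp hp).symm
  have hinj : Set.InjOn (fun m => (m * x) % p) (Finset.Ico 1 p : Set ℕ) := by
    intro m hm m' hm' h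
    rw [Finset.coe_Ico, Set.mem_Ico] at hm hm'
    have h1 : m * x ≡ m' * x [MOD p] := h
    have h2 : m ≡ m' [MOD p] := Nat.ModEq.cancel_right_of_coprime hcop.symm h1
    have h3 : m % p = m' % p := h2
    rwa [Nat.mod_eq_of_lt hm.2, Nat.mod_eq_of_lt hm'.2] at h3
  have himg : (Finset.Ico 1 p).image (fun m => (m * x) % p) = Finset.Ico 1 p := by
    apply Finset.eq_of_subset_of_card_le
    · intro y hy
      rw [Finset.mem_image] at hy
      obtain ⟨m, hm, rfl⟩ := hy
      rw [Finset.mem_Ico] at hm ⊢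
      refine ⟨?_, Nat.mod_lt _ hp.pos⟩
      apply Nat.one_le_iff_ne_zero.mpr
      intro h0
      have h1 : p ∣ m * x := Nat.dvd_of_mod_eq_zero h0
      have h2 : p ∣ m := hcop.symm.dvd_of_dvd_mul_right h1
      exact absurd (Nat.le_of_dvd (by omega) h2) (by omega)
    · rw [Finset.card_image_of_injOn hinj]
  calc ∑ m ∈ Finset.Ico 1 p, (((m * x) % p : ℕ) : ℤ) ^ 2
      = ∑ y ∈ (Finset.Ico 1 p).image (fun m => (m * x) % p), (y : ℤ) ^ 2 := by
        rw [Finset.sum_image hinj]
    _ = _ := by rw [himg]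

theorem six_sum_sq (p : ℕ) (hp : 1 ≤ p) :
    6 * ∑ m ∈ Finset.Ico 1 p, (m : ℤ) ^ 2 = ((p : ℤ) - 1) * p * (2 * p - 1) := by
  induction p, hp using Nat.le_induction with
  | base => simp
  | succ n hn ih =>
    rw [Finset.sum_Ico_succ_top hn, mul_add, ih]
    push_cast
    ring

/-- the first moment of the quotients `⌊m x / p⌋` modulo `p`. -/
theorem quot_sum (p x : ℕ) [Fact p.Prime] (hx : 0 < x) (hxp : x < p) :
    12 * (x : ZMod p) * ((∑ m ∈ Finset.Ico 1 p, (m : ℤ) * (((m * x) / p : ℕ) : ℤ) : ℤ) : ZMod p) =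
      (x : ZMod p) ^ 2 - 1 := by
  have hp : p.Prime := Fact.out
  have hpz : (p : ℤ) ≠ 0 := by exact_mod_cast hp.ne_zero
  set Q : ℤ := ∑ m ∈ Finset.Ico 1 p, (m : ℤ) * (((m * x) / p : ℕ) : ℤ) with hQ
  set Q2 : ℤ := ∑ m ∈ Finset.Ico 1 p, (((m * x) / p : ℕ) : ℤ) ^ 2 with hQ2
  set S : ℤ := ∑ m ∈ Finset.Ico 1 p, (m : ℤ) ^ 2 with hS
  have h1 : S = (x : ℤ) ^ 2 * S - 2 * p * x * Q + (p : ℤ) ^ 2 * Q2 := by
    calc S = ∑ m ∈ Finset.Ico 1 p, (((m * x) % p : ℕ) : ℤ) ^ 2 := (sum_sq_perm p x hp hx hxp).symm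
      _ = ∑ m ∈ Finset.Ico 1 p, ((x : ℤ) ^ 2 * (m : ℤ) ^ 2 -
            2 * p * x * ((m : ℤ) * (((m * x) / p : ℕ) : ℤ)) +
            (p : ℤ) ^ 2 * (((m * x) / p : ℕ) : ℤ) ^ 2) := by
          apply Finset.sum_congr rfl
          intro m _
          have h2 : (((m * x) % p : ℕ) : ℤ) = (m : ℤ) * x - p * (((m * x) / p : ℕ) : ℤ) := by
            have := Nat.mod_add_div (m * x) p
            have h3 : (((m * x) % p + p * ((m * x) / p) : ℕ) : ℤ) = ((m * x : ℕ) : ℤ) := by
              rw [this]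
            push_cast at h3 ⊢
            linarith
          rw [h2]; ring
      _ = _ := by
          rw [Finset.sum_add_distrib, Finset.sum_sub_distrib, ← Finset.mul_sum,
            ← Finset.mul_sum, ← Finset.mul_sum]
  have h6 := six_sum_sq p hp.one_lt.le
  rw [← hS] at h6
  have h7 : (p : ℤ) * (((p : ℤ) - 1) * (2 * p - 1) * (1 - (x : ℤ) ^ 2)) =
      p * (-12 * x * Q + 6 * p * Q2) := by
    have : (p : ℤ) * (((p : ℤ) - 1) * (2 * p - 1) * (1 - (x : ℤ) ^ 2)) =
        (((p : ℤ) - 1) * p * (2 * p - 1)) * (1 - (x : ℤ) ^ 2) := by ring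
    rw [this, ← h6]
    linear_combination 6 * h1
  have h8 := mul_left_cancel₀ hpz h7
  have h9 := congrArg (fun z : ℤ => (z : ZMod p)) h8
  push_cast at h9
  simp only [CharP.cast_eq_zero] at h9
  linear_combination h9

/-- for a prime `p`, the value `{a, b}` is determined by `a + b mod p` and the sums of residues. -/
theorem pair_unique (p a b c d : ℕ) (hp : p.Prime) (ha : 0 < a) (hap : a < p) (hb : 0 < b)
    (hbp : b < p) (hc : 0 < c) (hcp : c < p) (hd : 0 < d) (hdp : d < p)
    (hs : (a + b) % p ≠ 0) (hmod : (a + b) % p = (c + d) % p)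
    (H : ∀ m : ℕ, Nat.Coprime m p → (m * a) % p + (m * b) % p = (m * c) % p + (m * d) % p) :
    (a = c ∧ b = d) ∨ (a = d ∧ b = c) := by
  rcases lt_or_ge p 5 with h5 | h5
  · have hp2 := hp.two_le
    have hp4 : p ≠ 4 := by rintro rfl; exact absurd hp (by norm_num)
    interval_cases p
    · interval_cases a <;> interval_cases b <;> simp at hs
    · interval_cases a <;> interval_cases b <;> interval_cases c <;> interval_cases d <;>
        simp at hs hmod ⊢
    · omega
  · have : Fact p.Prime := ⟨hp⟩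
    have hpz : (p : ℤ) ≠ 0 := by exact_mod_cast hp.ne_zero
    -- the sums of quotients agree
    obtain ⟨κ, hκ⟩ : ∃ κ : ℤ, (a : ℤ) + b - (c + d) = p * κ := by
      have : (p : ℤ) ∣ ((c + d : ℕ) : ℤ) - ((a + b : ℕ) : ℤ) := (Nat.modEq_iff_dvd).mp hmod
      obtain ⟨z, hz⟩ := this
      exact ⟨-z, by push_cast at hz; linarith⟩
    have hquot : ∀ m ∈ Finset.Ico 1 p, (((m * a) / p : ℕ) : ℤ) + (((m * b) / p : ℕ) : ℤ)
        - (((m * c) / p : ℕ) : ℤ) - (((m * d) / p : ℕ) : ℤ) = m * κ := by
      intro m hm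
      rw [Finset.mem_Ico] at hm
      have hcop : Nat.Coprime m p := (Nat.coprime_of_lt_prime (by omega) hm.2 hp).symm
      have h1 := H m hcop
      have e : ∀ x : ℕ, (m : ℤ) * x = (((m * x) % p : ℕ) : ℤ) + p * (((m * x) / p : ℕ) : ℤ) := by
        intro x
        have := Nat.mod_add_div (m * x) p
        have h3 : (((m * x) % p + p * ((m * x) / p) : ℕ) : ℤ) = ((m * x : ℕ) : ℤ) := by
          rw [this]
        push_cast at h3 ⊢
        linarith
      have h2 : (((m * a) % p : ℕ) : ℤ) + (((m * b) % p : ℕ) : ℤ) =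
          (((m * c) % p : ℕ) : ℤ) + (((m * d) % p : ℕ) : ℤ) := by exact_mod_cast h1
      have ea := e a
      have eb := e b
      have ec := e c
      have ed := e d
      have h4 : (p : ℤ) * ((((m * a) / p : ℕ) : ℤ) + (((m * b) / p : ℕ) : ℤ)
        - (((m * c) / p : ℕ) : ℤ) - (((m * d) / p : ℕ) : ℤ)) = p * (m * κ) := by
        linear_combination (m : ℤ) * hκ - ea - eb + ec + ed - h2
      exact mul_left_cancel₀ hpz h4
    set q : ℕ → ℤ := fun x => ∑ m ∈ Finset.Ico 1 p, (m : ℤ) * (((m * x) / p : ℕ) : ℤ) with hq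
    have hqsum : q a + q b - q c - q d = κ * ∑ m ∈ Finset.Ico 1 p, (m : ℤ) ^ 2 := by
      simp only [hq]
      rw [← Finset.sum_add_distrib, ← Finset.sum_sub_distrib, ← Finset.sum_sub_distrib,
        Finset.mul_sum]
      apply Finset.sum_congr rfl
      intro m hm
      have := hquot m hm
      linear_combination (m : ℤ) * this
    have h6 := six_sum_sq p hp.one_lt.le
    have h66 : (6 : ZMod p) * ((∑ m ∈ Finset.Ico 1 p, (m : ℤ) ^ 2 : ℤ) : ZMod p) = 0 := by
      have := congrArg (fun z : ℤ => (z : ZMod p)) h6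
      push_cast at this
      simp only [CharP.cast_eq_zero, mul_zero, zero_mul] at this
      push_cast
      exact this
    have hqz : (6 : ZMod p) * ((q a : ZMod p) + q b - q c - q d) = 0 := by
      have := congrArg (fun z : ℤ => (z : ZMod p)) hqsum
      push_cast at this h66
      linear_combination (6 : ZMod p) * this + (κ : ZMod p) * h66
    have hne : ∀ x : ℕ, 0 < x → x < p → (x : ZMod p) ≠ 0 := by
      intro x hx hxp h0
      rw [ZMod.natCast_eq_zero_iff] at h0
      exact absurd (Nat.le_of_dvd hx h0) (by omega)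
    have ha0 := hne a ha hap
    have hb0 := hne b hb hbp
    have hc0 := hne c hc hcp
    have hd0 := hne d hd hdp
    have qa := quot_sum p a ha hap
    have qb := quot_sum p b hb hbp
    have qc := quot_sum p c hc hcp
    have qd := quot_sum p d hd hdp
    change 12 * (a : ZMod p) * (q a : ZMod p) = _ at qa
    change 12 * (b : ZMod p) * (q b : ZMod p) = _ at qb
    change 12 * (c : ZMod p) * (q c : ZMod p) = _ at qc
    change 12 * (d : ZMod p) * (q d : ZMod p) = _ at qd
    have hsum : (a : ZMod p) + b = c + d := by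
      have : ((a + b : ℕ) : ZMod p) = ((c + d : ℕ) : ZMod p) := by
        rw [ZMod.natCast_eq_natCast_iff]; exact hmod
      push_cast at this
      exact this
    have hs0 : (a : ZMod p) + b ≠ 0 := by
      intro h0
      apply hs
      have : ((a + b : ℕ) : ZMod p) = 0 := by push_cast; exact h0
      rw [ZMod.natCast_eq_zero_iff] at this
      exact Nat.mod_eq_zero_of_dvd this
    -- 1/a + 1/b = 1/c + 1/d
    have hinv : (b : ZMod p) * c * d + a * c * d = a * b * d + a * b * c := by
      have h12 : (12 : ZMod p) * a * b * c * d * ((q a : ZMod p) + q b - q c - q d) = 0 := by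
        linear_combination (2 * (a : ZMod p) * b * c * d) * hqz
      linear_combination (-(1 : ZMod p)) * h12 + (b * c * d : ZMod p) * qa + (a * c * d : ZMod p) * qb
        - (a * b * d : ZMod p) * qc - (a * b * c : ZMod p) * qd
        + ((a : ZMod p) * b * c * d) * hsum
    have hprod : (a : ZMod p) * b = c * d := by
      have h1 : ((a : ZMod p) + b) * (a * b - c * d) = 0 := by
        linear_combination (-(1 : ZMod p)) * hinv + ((a : ZMod p) * b) * hsum
      rcases mul_eq_zero.mp h1 with h2 | h2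
      · exact absurd h2 hs0
      · exact sub_eq_zero.mp h2
    have hfac : ((a : ZMod p) - c) * (a - d) = 0 := by
      linear_combination (a : ZMod p) * hsum - hprod
    have hcast : ∀ x y : ℕ, x < p → y < p → (x : ZMod p) = y → x = y := by
      intro x y hx hy hxy
      rw [ZMod.natCast_eq_natCast_iff'] at hxy
      rwa [Nat.mod_eq_of_lt hx, Nat.mod_eq_of_lt hy] at hxy
    rcases mul_eq_zero.mp hfac with h1 | h1
    · left
      have h2 : (a : ZMod p) = c := sub_eq_zero.mp h1
      refine ⟨hcast a c hap hcp h2, hcast b d hbp hdp ?_⟩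
      rw [h2] at hsum
      exact add_left_cancel hsum
    · right
      have h2 : (a : ZMod p) = d := sub_eq_zero.mp h1
      refine ⟨hcast a d hap hdp h2, hcast b c hbp hcp ?_⟩
      rw [h2] at hsum
      have : (d : ZMod p) + b = d + c := by rw [hsum]; ring
      exact add_left_cancel this

end Pool.Agent.Helper18.Roh
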