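import Pool.Agent.Helper18.Roh.Prime

namespace Pool.Agent.Helper18.Roh

open Finset

open Classical in
/-- pairs whose product of gamma values is an algebraic multiple of `lam`. -/
noncomputable def pairs (p : ℕ) (lam : ℝ) : Finset (ℕ × ℕ) :=
  (Finset.Ico 1 p ×ˢ Finset.Ico 1 p).filter fun x => ∃ α : ℝ, IsAlgebraic ℚ α ∧
    Real.Gamma ((x.1 : ℝ) / p) * Real.Gamma ((x.2 : ℝ) / p) = α * lam

theorem mem_pairs {p : ℕ} {lam : ℝ} {x : ℕ × ℕ} : x ∈ pairs p lam ↔
    ((1 ≤ x.1 ∧ x.1 < p) ∧ (1 ≤ x.2 ∧ x.2 < p)) ∧ ∃ α : ℝ, IsAlgebraic ℚ α ∧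
      Real.Gamma ((x.1 : ℝ) / p) * Real.Gamma ((x.2 : ℝ) / p) = α * lam := by
  classical
  simp [pairs, Finset.mem_product]

theorem pairs_same (hWW : WolfartWustholz) {p : ℕ} (hp : p.Prime) {lam : ℝ} {x y : ℕ × ℕ}
    (hx : x ∈ pairs p lam) (hy : y ∈ pairs p lam) (hs : (x.1 + x.2) % p ≠ 0)
    (hmod : (x.1 + x.2) % p = (y.1 + y.2) % p) :
    (x.1 = y.1 ∧ x.2 = y.2) ∨ (x.1 = y.2 ∧ x.2 = y.1) := by
  obtain ⟨⟨⟨h1, h2⟩, h3, h4⟩, α, hα, hα'⟩ := mem_pairs.mp hx
  obtain ⟨⟨⟨g1, g2⟩, g3, g4⟩, β, hβ, hβ'⟩ := mem_pairs.mp hy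
  have hpR : (0 : ℝ) < p := by exact_mod_cast hp.pos
  have hG : ∀ x : ℕ, 0 < x → Real.Gamma ((x : ℝ) / p) ≠ 0 := fun x hx =>
    (Real.Gamma_pos_of_pos (by positivity)).ne'
  have halg : IsAlgebraic ℚ (Real.Gamma ((x.1 : ℝ) / p) * Real.Gamma ((x.2 : ℝ) / p) /
      (Real.Gamma ((y.1 : ℝ) / p) * Real.Gamma ((y.2 : ℝ) / p))) := by
    have hne := mul_ne_zero (hG y.1 (by omega)) (hG y.2 (by omega))
    rw [hβ'] at hne
    have hβ0 := left_ne_zero_of_mul hne
    have hl := right_ne_zero_of_mul hne
    rw [hα', hβ']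
    have : α * lam / (β * lam) = α * β⁻¹ := by field_simp
    rw [this]
    exact hα.mul hβ.inv
  exact pair_unique p x.1 x.2 y.1 y.2 hp (by omega) h2 (by omega) h4 (by omega) g2 (by omega) g4
    hs hmod (ww_nat hWW hp.pos (by omega) h2 (by omega) h4 (by omega) g2 (by omega) g4 hs hmod halg)

theorem card_pairs_le (hWW : WolfartWustholz) {p : ℕ} (hp : p.Prime) (lam : ℝ) :
    (pairs p lam).card ≤ 3 * (p - 1) := by
  classical
  have hmaps : ∀ x ∈ pairs p lam, (x.1 + x.2) % p ∈ Finset.range p := fun x _ =>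
    Finset.mem_range.mpr (Nat.mod_lt _ hp.pos)
  rw [Finset.card_eq_sum_card_fiberwise hmaps]
  obtain ⟨n, rfl⟩ : ∃ n, p = n + 1 := ⟨p - 1, by have := hp.pos; omega⟩
  rw [Finset.sum_range_succ', Nat.add_sub_cancel]
  have h0 : ((pairs (n + 1) lam).filter fun x => (x.1 + x.2) % (n + 1) = 0).card ≤ n := by
    have hcI : (Finset.Ico 1 (n + 1)).card = n := by simp
    refine le_trans (Finset.card_le_card_of_injOn (t := Finset.Ico 1 (n + 1))
      (fun x => x.1) ?_ ?_) hcI.le
    · intro x hx
      rw [Finset.mem_coe, Finset.mem_filter] at hx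
      obtain ⟨⟨⟨h1, h2⟩, -⟩, -⟩ := mem_pairs.mp hx.1
      rw [Finset.mem_coe, Finset.mem_Ico]
      exact ⟨h1, h2⟩
    · intro x hx y hy hxy
      rw [Finset.mem_coe, Finset.mem_filter] at hx hy
      obtain ⟨⟨⟨h1, h2⟩, h3, h4⟩, -⟩ := mem_pairs.mp hx.1
      obtain ⟨⟨⟨g1, g2⟩, g3, g4⟩, -⟩ := mem_pairs.mp hy.1
      simp only at hxy
      have hx2 : x.1 + x.2 = n + 1 := by
        obtain ⟨k, hk⟩ := Nat.dvd_of_mod_eq_zero hx.2
        have : k = 1 := by
          have h5 : k < 2 := by
            by_contra hno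
            have : (n + 1) * 2 ≤ (n + 1) * k := Nat.mul_le_mul_left _ (by omega)
            omega
          have h6 : k ≠ 0 := by rintro rfl; omega
          omega
        rw [this] at hk; omega
      have hy2 : y.1 + y.2 = n + 1 := by
        obtain ⟨k, hk⟩ := Nat.dvd_of_mod_eq_zero hy.2
        have : k = 1 := by
          have h5 : k < 2 := by
            by_contra hno
            have : (n + 1) * 2 ≤ (n + 1) * k := Nat.mul_le_mul_left _ (by omega)
            omega
          have h6 : k ≠ 0 := by rintro rfl; omega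
          omega
        rw [this] at hk; omega
      exact Prod.ext hxy (by omega)
  have h1 : ∀ s ∈ Finset.range n,
      ((pairs (n + 1) lam).filter fun x => (x.1 + x.2) % (n + 1) = s + 1).card ≤ 2 := by
    intro s _
    rcases ((pairs (n + 1) lam).filter fun x => (x.1 + x.2) % (n + 1) = s + 1).eq_empty_or_nonempty
      with he | ⟨x, hx⟩
    · rw [he]; simp
    · have hsub : ((pairs (n + 1) lam).filter fun x => (x.1 + x.2) % (n + 1) = s + 1) ⊆
          {(x.1, x.2), (x.2, x.1)} := by
        intro y hy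
        rw [Finset.mem_filter] at hx hy
        rcases pairs_same hWW hp hy.1 hx.1 (by rw [hy.2]; omega) (by rw [hy.2, hx.2]) with h | h
        · rw [Finset.mem_insert]; left; exact Prod.ext h.1 h.2
        · rw [Finset.mem_insert, Finset.mem_singleton]; right; exact Prod.ext h.1 h.2
      exact (Finset.card_le_card hsub).trans Finset.card_le_two
  have h2 : ∑ s ∈ Finset.range n,
      ((pairs (n + 1) lam).filter fun x => (x.1 + x.2) % (n + 1) = s + 1).card ≤
      ∑ s ∈ Finset.range n, 2 := Finset.sum_le_sum h1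
  rw [Finset.sum_const, Finset.card_range, smul_eq_mul] at h2
  omega

/-- level sets for a prime denominator have at most `√(2(p-1))` elements. -/
theorem card_level_sq_le (hWW : WolfartWustholz) {p : ℕ} (hp : p.Prime) (hp2 : p ≠ 2) (lam : ℝ) :
    (level p lam).card ^ 2 ≤ 2 * (p - 1) := by
  classical
  set S := level p lam with hS
  have hodd : p % 2 = 1 := hp.eq_two_or_odd.resolve_left hp2
  -- the square as a set of pairs
  have hmem : ∀ a ∈ S, 1 ≤ a ∧ a < p := fun a ha => (mem_level.mp ha).1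
  have hprod : ∀ x ∈ S ×ˢ S, x ∈ pairs p (lam * lam) := by
    intro x hx
    rw [Finset.mem_product] at hx
    obtain ⟨h1, α, hα, hα'⟩ := mem_level.mp hx.1
    obtain ⟨h2, β, hβ, hβ'⟩ := mem_level.mp hx.2
    rw [mem_pairs]
    exact ⟨⟨h1, h2⟩, α * β, hα.mul hβ, by rw [hα', hβ']; ring⟩
  have hmaps : ∀ x ∈ S ×ˢ S, (x.1 + x.2) % p ∈ Finset.range p := fun x _ =>
    Finset.mem_range.mpr (Nat.mod_lt _ hp.pos)
  have hcard : S.card ^ 2 = ∑ s ∈ Finset.range p,
      ((S ×ˢ S).filter fun x => (x.1 + x.2) % p = s).card := by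
    rw [← Finset.card_eq_sum_card_fiberwise hmaps, Finset.card_product, sq]
  have hdbl : (S.image fun a => (a + a) % p).card = S.card := by
    apply Finset.card_image_of_injOn
    intro a ha b hb h
    have ha' := hmem a ha
    have hb' := hmem b hb
    have h1 : 2 * a ≡ 2 * b [MOD p] := by
      have : (a + a) % p = (b + b) % p := h
      rw [two_mul, two_mul]; exact this
    have hc2 : Nat.Coprime p 2 := by
      rw [Nat.coprime_two_right]; exact Nat.odd_iff.mpr hodd
    have h2 : a ≡ b [MOD p] := Nat.ModEq.cancel_left_of_coprime hc2 h1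
    have h3 : a % p = b % p := h2
    rwa [Nat.mod_eq_of_lt ha'.2, Nat.mod_eq_of_lt hb'.2] at h3
  have hdbl0 : ∀ a ∈ S, (a + a) % p ≠ 0 := by
    intro a ha h0
    have ha' := hmem a ha
    have h1 : p ∣ 2 * a := by rw [two_mul]; exact Nat.dvd_of_mod_eq_zero h0
    have hc2 : Nat.Coprime p 2 := by
      rw [Nat.coprime_two_right]; exact Nat.odd_iff.mpr hodd
    have h2 : p ∣ a := hc2.dvd_of_dvd_mul_left h1
    exact absurd (Nat.le_of_dvd (by omega) h2) (by omega)
  obtain ⟨n, hn⟩ : ∃ n, p = n + 1 := ⟨p - 1, by have := hp.pos; omega⟩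
  have h0 : ((S ×ˢ S).filter fun x => (x.1 + x.2) % p = 0).card ≤ S.card := by
    apply Finset.card_le_card_of_injOn (fun x => x.1)
    · intro x hx
      rw [Finset.mem_coe, Finset.mem_filter, Finset.mem_product] at hx
      exact hx.1.1
    · intro x hx y hy hxy
      rw [Finset.mem_coe, Finset.mem_filter, Finset.mem_product] at hx hy
      have g1 := hmem _ hx.1.1
      have g2 := hmem _ hx.1.2
      have g3 := hmem _ hy.1.1
      have g4 := hmem _ hy.1.2
      simp only at hxy
      have h1 : x.1 + x.2 ≡ x.1 + y.2 [MOD p] := by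
        have : (x.1 + x.2) % p = (x.1 + y.2) % p := by
          rw [hx.2]
          conv_rhs => rw [hxy]
          rw [hy.2]
        exact this
      have h2 : x.2 ≡ y.2 [MOD p] := Nat.ModEq.add_left_cancel' _ h1
      have h3 : x.2 % p = y.2 % p := h2
      rw [Nat.mod_eq_of_lt g2.2, Nat.mod_eq_of_lt g4.2] at h3
      exact Prod.ext hxy h3
  have h1 : ∀ s ∈ Finset.Ico 1 p,
      ((S ×ˢ S).filter fun x => (x.1 + x.2) % p = s).card +
        (if s ∈ S.image (fun a => (a + a) % p) then 1 else 0) ≤ 2 := by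
    intro s hs
    rw [Finset.mem_Ico] at hs
    split_ifs with him
    · rw [Finset.mem_image] at him
      obtain ⟨a, ha, has⟩ := him
      have : ((S ×ˢ S).filter fun x => (x.1 + x.2) % p = s) ⊆ {(a, a)} := by
        intro y hy
        rw [Finset.mem_filter] at hy
        have haa : (a, a) ∈ S ×ˢ S := Finset.mem_product.mpr ⟨ha, ha⟩
        rcases pairs_same hWW hp (hprod y hy.1) (hprod _ haa) (by rw [hy.2]; omega)
          (by rw [hy.2]; exact has.symm) with h | h
        · rw [Finset.mem_singleton]; exact Prod.ext h.1 h.2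
        · rw [Finset.mem_singleton]; exact Prod.ext h.1 h.2
      have := Finset.card_le_card this
      rw [Finset.card_singleton] at this
      omega
    · rw [add_zero]
      rcases ((S ×ˢ S).filter fun x => (x.1 + x.2) % p = s).eq_empty_or_nonempty
        with he | ⟨x, hx⟩
      · rw [he]; simp
      · have hsub : ((S ×ˢ S).filter fun x => (x.1 + x.2) % p = s) ⊆
            {(x.1, x.2), (x.2, x.1)} := by
          intro y hy
          rw [Finset.mem_filter] at hx hy
          rcases pairs_same hWW hp (hprod y hy.1) (hprod x hx.1) (by rw [hy.2]; omega)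
            (by rw [hy.2, hx.2]) with h | h
          · rw [Finset.mem_insert]; left; exact Prod.ext h.1 h.2
          · rw [Finset.mem_insert, Finset.mem_singleton]; right; exact Prod.ext h.1 h.2
        exact (Finset.card_le_card hsub).trans Finset.card_le_two
  have h2 := Finset.sum_le_sum h1
  rw [Finset.sum_add_distrib, Finset.sum_const, Nat.card_Ico, smul_eq_mul] at h2
  have h3 : ∑ s ∈ Finset.Ico 1 p, (if s ∈ S.image (fun a => (a + a) % p) then 1 else 0) = S.card := by
    rw [Finset.sum_ite, Finset.sum_const_zero, add_zero, Finset.sum_const, smul_eq_mul, mul_one,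
      ← hdbl]
    congr 1
    ext s
    rw [Finset.mem_filter, Finset.mem_Ico]
    constructor
    · exact fun h => h.2
    · intro h
      refine ⟨?_, h⟩
      rw [Finset.mem_image] at h
      obtain ⟨a, ha, has⟩ := h
      have := hdbl0 a ha
      rw [has] at this
      exact ⟨by omega, by rw [← has]; exact Nat.mod_lt _ hp.pos⟩
  rw [h3] at h2
  have h4 : ∑ s ∈ Finset.range p, ((S ×ˢ S).filter fun x => (x.1 + x.2) % p = s).card =
      ((S ×ˢ S).filter fun x => (x.1 + x.2) % p = 0).card +
      ∑ s ∈ Finset.Ico 1 p, ((S ×ˢ S).filter fun x => (x.1 + x.2) % p = s).card := by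
    rw [Finset.range_eq_Ico, Finset.sum_eq_sum_Ico_succ_bot hp.pos]
  rw [hcard, h4]
  have := hp.pos
  omega

open Classical in
theorem card_algSide_prime (hWW : WolfartWustholz) {p : ℕ} (hp : p.Prime) (s : ℕ) :
    ((Fintype.piFinset fun _ : Fin (s + 2) => Finset.Ico 1 p).filter
      fun j => AlgSide (s + 2) (fun i => (j i : ℚ) / p)).card ≤ 3 * (p - 1) * (p - 1) ^ s := by
  have hpR : (0 : ℝ) < p := by exact_mod_cast hp.pos
  have h1 := Finset.card_le_mul_card_image
    (f := fun j : Fin (s + 2) → ℕ => Fin.tail (Fin.tail j))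
    ((Fintype.piFinset fun _ : Fin (s + 2) => Finset.Ico 1 p).filter
      fun j => AlgSide (s + 2) (fun i => (j i : ℚ) / p)) (3 * (p - 1)) ?_
  · refine h1.trans (Nat.mul_le_mul_left _ ?_)
    calc _ ≤ (Fintype.piFinset fun _ : Fin s => Finset.Ico 1 p).card := by
          apply Finset.card_le_card
          intro t ht
          rw [Finset.mem_image] at ht
          obtain ⟨j, hj, rfl⟩ := ht
          rw [Finset.mem_filter, Fintype.mem_piFinset] at hj
          rw [Fintype.mem_piFinset]
          intro i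
          exact hj.1 i.succ.succ
      _ = (p - 1) ^ s := by simp
  · intro t ht
    rw [Finset.mem_image] at ht
    obtain ⟨j0, hj0, rfl⟩ := ht
    rw [Finset.mem_filter, Fintype.mem_piFinset] at hj0
    set t := Fin.tail (Fin.tail j0) with ht
    have htm : ∀ i, 1 ≤ t i ∧ t i < p := by
      intro i
      have := hj0.1 i.succ.succ
      rw [Finset.mem_Ico] at this
      exact this
    set Q : ℝ := ∏ i : Fin s, Real.Gamma ((t i : ℝ) / p) with hQ
    have hQne : Q ≠ 0 := by
      rw [hQ]
      apply Finset.prod_ne_zero_iff.mpr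
      intro i _
      have hti : (0 : ℝ) < t i := by exact_mod_cast (by have := htm i; omega : 0 < t i)
      exact (Real.Gamma_pos_of_pos (by positivity)).ne'
    refine le_trans ?_ (card_pairs_le hWW hp (Real.pi ^ (((s + 2 : ℕ) : ℝ) / 2) / Q))
    apply Finset.card_le_card_of_injOn (fun j => (j 0, j 1))
    · intro j hj
      rw [Finset.mem_coe, Finset.mem_filter, Finset.mem_filter, Fintype.mem_piFinset] at hj
      obtain ⟨⟨hj1, α, hα, hα'⟩, hj2⟩ := hj
      rw [Finset.mem_coe, mem_pairs]
      refine ⟨⟨Finset.mem_Ico.mp (hj1 0), Finset.mem_Ico.mp (hj1 1)⟩, α, hα, ?_⟩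
      rw [Fin.prod_univ_succ, Fin.prod_univ_succ] at hα'
      have e : ∏ i : Fin s, Real.Gamma ((((j i.succ.succ : ℚ) / p : ℚ)) : ℝ) = Q := by
        rw [hQ]
        apply Finset.prod_congr rfl
        intro i _
        have : t i = j i.succ.succ := by rw [← hj2]; rfl
        rw [this]
        push_cast
        rfl
      rw [e] at hα'
      have e2 : ∀ x : ℕ, ((((x : ℚ) / p : ℚ)) : ℝ) = (x : ℝ) / p := by
        intro x; push_cast; rfl
      rw [e2, e2] at hα'
      have e3 : j (Fin.succ 0) = j 1 := rfl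
      rw [e3] at hα'
      rw [← mul_div_assoc, ← hα']
      field_simp
    · intro j hj j' hj' h
      rw [Finset.mem_coe, Finset.mem_filter] at hj hj'
      simp only [Prod.mk.injEq] at h
      have e1 : Fin.tail j = Fin.tail j' := by
        rw [← Fin.cons_self_tail (Fin.tail j), ← Fin.cons_self_tail (Fin.tail j'), hj.2, hj'.2]
        have : Fin.tail j 0 = Fin.tail j' 0 := h.2
        rw [this]
      rw [← Fin.cons_self_tail j, ← Fin.cons_self_tail j', e1, h.1]

theorem card_failing_prime (hWW : WolfartWustholz) {p : ℕ} (hp : p.Prime) (r : ℕ) (hr : 2 ≤ r) :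
    (failing r p).card ≤ 4 * (p - 1) ^ (r - 1) := by
  classical
  obtain ⟨s, rfl⟩ : ∃ s, r = s + 2 := ⟨r - 2, by omega⟩
  have h1 := card_algSide_prime hWW hp s
  have h2 := card_fractSide_le (s + 1) p hp.two_le
  have h3 : failing (s + 2) p ⊆
      ((Fintype.piFinset fun _ : Fin (s + 2) => Finset.Ico 1 p).filter
        fun j => AlgSide (s + 2) (fun i => (j i : ℚ) / p)) ∪
      ((Fintype.piFinset fun _ : Fin (s + 2) => Finset.Ico 1 p).filter
        fun j => FractSide (s + 2) (fun i => (j i : ℚ) / p) p) := by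
    intro j hj
    rw [failing, Finset.mem_filter] at hj
    rw [Finset.mem_union, Finset.mem_filter, Finset.mem_filter]
    by_cases hA : AlgSide (s + 2) (fun i => (j i : ℚ) / p)
    · left; exact ⟨hj.1, hA⟩
    · right
      refine ⟨hj.1, ?_⟩
      by_contra hF
      exact hj.2 ⟨fun h => absurd h hA, fun h => absurd h hF⟩
  calc (failing (s + 2) p).card ≤ _ := (Finset.card_le_card h3).trans (Finset.card_union_le _ _)
    _ ≤ 3 * (p - 1) * (p - 1) ^ s + 1 * (p - 1) ^ (s + 1) := Nat.add_le_add h1 h2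
    _ = 4 * (p - 1) ^ (s + 2 - 1) := by
      have : s + 2 - 1 = s + 1 := by omega
      rw [this, pow_succ]; ring

theorem card_failing_one (hWW : WolfartWustholz) {p : ℕ} (hp : p.Prime) :
    (failing 1 p).card ^ 2 ≤ 2 * (p - 1) := by
  classical
  by_cases hp2 : p = 2
  · subst hp2
    have h1 : (failing 1 2).card ≤ 1 := by
      refine (Finset.card_filter_le _ _).trans ?_
      simp
    have : (failing 1 2).card ^ 2 ≤ 1 ^ 2 := Nat.pow_le_pow_left h1 2
    omega
  · refine le_trans (Nat.pow_le_pow_left ?_ 2) (card_level_sq_le hWW hp hp2 (Real.pi ^ ((1 : ℝ) / 2)))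
    apply Finset.card_le_card_of_injOn (fun j => j 0)
    · intro j hj
      rw [Finset.mem_coe, failing, Finset.mem_filter, Fintype.mem_piFinset] at hj
      obtain ⟨hj1, hj2⟩ := hj
      have hj0 := Finset.mem_Ico.mp (hj1 0)
      rw [Finset.mem_coe, mem_level]
      refine ⟨hj0, ?_⟩
      by_contra hno
      apply hj2
      constructor
      · rintro ⟨α, hα, hα'⟩
        exfalso
        apply hno
        refine ⟨α, hα, ?_⟩
        rw [Fin.prod_univ_one] at hα'
        have e2 : ((((j 0 : ℚ) / p : ℚ)) : ℝ) = (j 0 : ℝ) / p := by push_cast; rfl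
        rw [e2] at hα'
        rw [hα']
        norm_num
      · intro hF
        exfalso
        have h1 := hF 1 le_rfl hp.one_lt (Nat.coprime_one_left p)
        rw [Fin.sum_univ_one, fract_natMul, one_mul, Nat.mod_eq_of_lt hj0.2] at h1
        have hpQ : (p : ℚ) ≠ 0 := by exact_mod_cast hp.ne_zero
        have h3 : (2 * j 0 : ℚ) = p := by
          field_simp at h1
          push_cast at h1
          linarith
        have h4 : 2 * j 0 = p := by exact_mod_cast h3
        have := hp.eq_two_or_odd.resolve_left hp2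
        omega
    · intro j hj j' hj' h
      funext i
      have : i = 0 := Subsingleton.elim _ _
      rw [this]
      exact h

end Pool.Agent.Helper18.Roh
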